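import Mathlib
import Pool.Agent.H785R2.ABC.Defs

/-!
# abc: failure of all bounds at a level (four exponent classes and the tail)
-/

namespace Pool.Agent.H705R2.ABC2

open Finset Pool.Agent.H785R2.ABC

/-- a set of classes given by its membership list -/
def ms (a b c d e : Bool) : Finset (Fin 5) := univ.filter fun i => ![a, b, c, d, e] i = true

/-- all bounds M, S, D fail at the level `t` -/
structure Fail (v w : Fin 3 → Fin 5 → ℝ) (t : ℝ) : Prop where
  M : ∀ p q r : Fin 3, p ≠ q → q ≠ r → p ≠ r → ∀ k : ℕ, 1 ≤ k → k ≤ 5 →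
    ∀ Sp Sq F : Finset (Fin 5), Good 4 k Sp → Good 4 k Sq →
    t < cost v p Spᶜ + cost v q Sqᶜ + cost v r F ∨
    t < cost v p Spᶜ + cost v q Sqᶜ + cost v r F +
      ((cost w p Sp + cost w q Sq) / k - cost w r F - thn w r)
  S : ∀ p q r : Fin 3, p ≠ q → q ≠ r → p ≠ r → ∀ F : Finset (Fin 5),
    t < cost v r F + (1 / 2) * (cost v p univ + max 0 (3 / 2 * cost v p univ - cost w r F)) +
      (1 / 2) * (cost v q univ + max 0 (3 / 2 * cost v q univ - cost w r F))
  D : ∀ p q r : Fin 3, p ≠ q → q ≠ r → p ≠ r → ∀ i : Fin 5, 1 ≤ (i : ℕ) → (i : ℕ) < 4 →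
    t < cost v p {i}ᶜ + cost v q univ ∨
    t < (1 / 2) * (cost v p {i}ᶜ + cost v q univ) + cost v r univ

theorem cost_ms (v : Fin 3 → Fin 5 → ℝ) (j : Fin 3) (a b c d e : Bool) :
    cost v j (ms a b c d e) = cond a (v j 0) 0 + cond b (v j 1) 0 + cond c (v j 2) 0 +
      cond d (v j 3) 0 + cond e (v j 4) 0 := by
  unfold cost ms
  rw [Finset.sum_filter, Fin.sum_univ_five]
  simp only [Matrix.cons_val_zero, Matrix.cons_val_one, Matrix.cons_val]
  cases a <;> cases b <;> cases c <;> cases d <;> cases e <;> simp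

theorem cost_univ (v : Fin 3 → Fin 5 → ℝ) (j : Fin 3) :
    cost v j univ = v j 0 + v j 1 + v j 2 + v j 3 + v j 4 := by
  unfold cost
  rw [Fin.sum_univ_five]

theorem cost_ms_compl (v : Fin 3 → Fin 5 → ℝ) (j : Fin 3) (a b c d e : Bool) :
    cost v j (ms a b c d e)ᶜ = cond a 0 (v j 0) + cond b 0 (v j 1) + cond c 0 (v j 2) +
      cond d 0 (v j 3) + cond e 0 (v j 4) := by
  have h : (ms a b c d e)ᶜ = ms (!a) (!b) (!c) (!d) (!e) := by
    revert a b c d e
    decide
  rw [h, cost_ms]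
  cases a <;> cases b <;> cases c <;> cases d <;> cases e <;> simp

theorem cost_single_compl (v : Fin 3 → Fin 5 → ℝ) (j : Fin 3) (i : Fin 5) :
    cost v j {i}ᶜ = v j 0 + v j 1 + v j 2 + v j 3 + v j 4 - v j i := by
  have h := Finset.sum_add_sum_compl {i} (fun i => v j i)
  rw [Fin.sum_univ_five, Finset.sum_singleton] at h
  unfold cost
  linarith

/-- the sets of classes all of whose exponents are divisible by `k` -/
def gd (k : ℕ) (a b c d e : Bool) : Bool :=
  decide (k = 1) || (!a && (!b || decide (k ∣ 2)) && (!c || decide (k ∣ 3)) &&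
    (!d || decide (k ∣ 4)) && !e)

theorem good_ms (k : ℕ) (a b c d e : Bool) (h : gd k a b c d e = true) :
    Good 4 k (ms a b c d e) := by
  intro i hi
  by_cases hk : k = 1
  · exact Or.inl hk
  right
  unfold gd at h
  simp only [hk, decide_false, Bool.false_or, Bool.and_eq_true, Bool.not_eq_true',
    Bool.or_eq_true, decide_eq_true_eq] at h
  obtain ⟨⟨⟨⟨ha, hb⟩, hc⟩, hd⟩, he⟩ := h
  have hi' : ![a, b, c, d, e] i = true := (mem_filter.1 hi).2
  fin_cases i
  · simp [ha] at hi'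
  · refine ⟨by norm_num, ?_⟩
    rcases hb with h1 | h1
    · simp [h1] at hi'
    · exact h1
  · refine ⟨by norm_num, ?_⟩
    rcases hc with h1 | h1
    · simp [h1] at hi'
    · exact h1
  · refine ⟨by norm_num, ?_⟩
    rcases hd with h1 | h1
    · simp [h1] at hi'
    · exact h1
  · simp [he] at hi'

/-- the weights -/
structure Wt (v w : Fin 3 → Fin 5 → ℝ) : Prop where
  w0 : ∀ j, w j 0 = v j 0
  w1 : ∀ j, w j 1 = 2 * v j 1
  w2 : ∀ j, w j 2 = 3 * v j 2
  w3 : ∀ j, w j 3 = 4 * v j 3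

theorem max2 (t X A B : ℝ) (h : t < X + max 0 A + max 0 B) :
    t < X ∨ t < X + A ∨ t < X + B ∨ t < X + A + B := by
  rcases max_choice (0 : ℝ) A with h1 | h1 <;> rcases max_choice (0 : ℝ) B with h2 | h2 <;>
    rw [h1, h2] at h
  · left; linarith
  · right; right; left; linarith
  · right; left; linarith
  · right; right; right; linarith

theorem max2s (t X P Q A B : ℝ)
    (h : t < X + (1 / 2) * (P + max 0 A) + (1 / 2) * (Q + max 0 B)) :
    t < X + 1 / 2 * P + 1 / 2 * Q ∨ t < X + 1 / 2 * P + 1 / 2 * Q + 1 / 2 * A ∨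
      t < X + 1 / 2 * P + 1 / 2 * Q + 1 / 2 * B ∨
      t < X + 1 / 2 * P + 1 / 2 * Q + 1 / 2 * A + 1 / 2 * B := by
  rcases max_choice (0 : ℝ) A with h1 | h1 <;> rcases max_choice (0 : ℝ) B with h2 | h2 <;>
    rw [h1, h2] at h
  · left; linarith
  · right; right; left; linarith
  · right; left; linarith
  · right; right; right; linarith

end Pool.Agent.H705R2.ABC2
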