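import Mathlib
import Pool.Agent.H705R2.ABC2.Bd
import Pool.Agent.H705R2.ABC2.Tree0

/-!
# abc, exponent 6/11: the certificate (generated), part 1
-/

set_option linter.unusedVariables false

namespace Pool.Agent.H705R2.ABC2

theorem sub8 (a0 a1 a2 a3 a4 b0 b1 b2 b3 b4 c0 c1 c2 c3 c4 ya yb yc t x d : ℝ)
    (H : Facts a0 a1 a2 a3 a4 b0 b1 b2 b3 b4 c0 c1 c2 c3 c4 ya yb yc t)
    (HB : BaseC a0 a1 a2 a3 a4 b0 b1 b2 b3 b4 c0 c1 c2 c3 c4 ya yb yc x d)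
    (hx : 0 ≤ x) (hd : 0 ≤ d) (ht : t = 6 / 11 + x + 1000 * d)
    (n0 : t < 1 / 2 * a0 + 1 / 2 * a1 + 1 / 2 * a2 + 1 / 2 * a3 + 1 / 2 * a4 + b1 + b2 + b3 + b4 + 1 / 2 * c0 + 1 / 2 * c1 + 1 / 2 * c2 + 1 / 2 * c3 + 1 / 2 * c4)
    (n1 : t < 1 / 2 * a0 + 1 / 2 * a1 + 1 / 2 * a2 + 1 / 2 * a3 + 1 / 2 * a4 + b0 + b2 + b3 + b4 + 1 / 2 * c0 + 1 / 2 * c1 + 1 / 2 * c2 + 1 / 2 * c3 + 1 / 2 * c4)
    (n5 : t < 1 / 2 * a0 + 1 / 2 * a1 + 1 / 2 * a2 + 1 / 2 * a3 + 1 / 2 * a4 + b2 + b3 + b4 + 1 / 2 * c0 + 1 / 2 * c1 + 1 / 2 * c2 + 1 / 2 * c3 + 1 / 2 * c4)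
    (n6 : t < a0 + a1 + a3 + a4 + b1 + b2 + b3 + b4 + c0 + c1 + c3 + c4)
    (n7 : t < 1 / 2 * a0 + 1 / 2 * a1 + 1 / 2 * a2 + 1 / 2 * a3 + 1 / 2 * a4 + 1 / 2 * b0 + 1 / 2 * b1 + 1 / 2 * b2 + 1 / 2 * b3 + 1 / 2 * b4 + c1 + c2 + c3 + c4)
    (n9 : t < 1 / 2 * a0 + 1 / 2 * a1 + 1 / 2 * a2 + 1 / 2 * a3 + 1 / 2 * a4 + b1 + b3 + b4 + 1 / 2 * c0 + 1 / 2 * c1 + 1 / 2 * c2 + 1 / 2 * c3 + 1 / 2 * c4)
    (n10 : t < 1 / 2 * a0 + 1 / 2 * a1 + 1 / 2 * a2 + 1 / 2 * a3 + 1 / 2 * a4 + b0 + b3 + b4 + 1 / 2 * c0 + 1 / 2 * c1 + 1 / 2 * c2 + 1 / 2 * c3 + 1 / 2 * c4)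
    (n11 : t < 1 / 2 * a0 + 1 / 2 * a1 + 1 / 2 * a2 + 1 / 2 * a3 + 1 / 2 * a4 + b3 + b4 + 1 / 2 * c0 + 1 / 2 * c1 + 1 / 2 * c2 + 1 / 2 * c3 + 1 / 2 * c4)
    (n12 : t < a1 + a3 + a4 + b0 + b1 + b2 + b4 + c0 + c1 + c2 + c3 + c4)
    (n14 : t < 1 / 2 * a0 + 1 / 2 * a1 + 1 / 2 * a2 + 1 / 2 * a3 + 1 / 2 * a4 + 1 / 2 * b0 + 1 / 2 * b1 + 1 / 2 * b2 + 1 / 2 * b3 + 1 / 2 * b4 + c2 + c3 + c4)
    (n15 : t < a2 + a3 + a4 + 1 / 2 * b0 + 1 / 2 * b1 + 1 / 2 * b2 + 1 / 2 * b3 + 1 / 2 * b4 + 1 / 2 * c0 + 1 / 2 * c1 + 1 / 2 * c2 + 1 / 2 * c3 + 1 / 2 * c4)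
    (n16 : t < a0 + a1 + a3 + a4 + b1 + b2 + b3 + c0 + c1 + c3 + c4)
    (n17 : t < a0 + a1 + a3 + a4 + b0 + b1 + b2 + b4 + c0 + c1 + c2 + c4)
    (n18 : t < a1 + a3 + a4 + b0 + b1 + b2 + b4 + c0 + c1 + c2 + c4)
    (n19 : t < a0 + a1 + a2 + a4 + b0 + b1 + b2 + b4 + c0 + c1 + c3 + c4)
    (n20 : t < a0 + a1 + a2 + a4 + b0 + b1 + b2 + b4 + c0 + c3 + c4) : False := by
  obtain ⟨B0, B1, B2, B3, B4, B5, B6, B7, B8, B9, pa0, pa1, pa2, pa3, pa4, pb0, pb1, pb2, pb3, pb4, pc0, pc1, pc2, pc3, pc4, pya, pyb, pyc⟩ := id HB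
  rcases H.f22 with n21 | n21
  · rcases H.f23 with n22 | n22
    · rcases H.f24 with n23 | n23
      · rcases H.f25 with n24 | n24 | n24 | n24
        · linarith only [n5, n7, n9, n11, n14, n15, n18, n24, B0, B1, B2, B4, B6, B7, B8, pya, hx, hd, ht]
        · rcases H.f26 with n25 | n25
          · linarith only [n9, n11, n12, n15, n18, n20, n24, n25, B0, B1, B2, B5, B6, B7, B8, B9, pa1, pc0, pya, hx, hd, ht]
          · linarith only [n5, n11, n12, n15, n16, n24, n25, B0, B1, B2, B5, B6, B7, B9, pa1, pc0, pya, hx, hd, ht]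
        · linarith only [n5, n9, n11, n15, n16, n18, n20, n22, n24, B0, B1, B2, B5, B6, B7, B8, pa1, pa3, pyc, hx, hd, ht]
        · rcases H.f27 with n25 | n25 | n25 | n25
          · linarith only [n0, n5, n11, n14, n20, n24, n25, B0, B2, B5, B7, B9, pa3, pc0, hx, hd, ht]
          · rcases H.f26 with n26 | n26
            · linarith only [n9, n11, n12, n15, n18, n20, n25, n26, B0, B1, B2, B5, B6, B7, B8, B9, pa1, pc0, pya, hx, hd, ht]
            · linarith only [n5, n11, n14, n15, n16, n24, n25, n26, B0, B1, B2, B5, B6, B7, B9, pa1, pc0, pya, hx, hd, ht]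
          · linarith only [n5, n9, n11, n15, n16, n18, n20, n22, n25, B0, B1, B2, B5, B6, B7, B8, pa1, pa3, pyc, hx, hd, ht]
          · rcases H.f28 with n26 | n26 | n26 | n26
            · linarith only [n5, n9, n11, n15, n20, n23, n25, n26, B0, B1, B2, B5, B6, B7, B8, B9, pa3, pc0, pyc, hx, hd, ht]
            · linarith only [n5, n11, n12, n15, n16, n18, n20, n23, n25, n26, B0, B2, B5, B6, B7, B8, B9, pa3, pc0, hx, hd, ht]
            · linarith only [n5, n11, n12, n15, n16, n18, n20, n23, n25, n26, B0, B2, B5, B6, B7, B8, B9, pa3, pc0, hx, hd, ht]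
            · rcases H.f29 with n27 | n27
              · linarith only [n5, n11, n12, n15, n16, n18, n22, n23, n25, n26, n27, B0, B2, B5, B6, B7, B8, B9, pa3, hx, hd, ht]
              · linarith only [n5, n11, n12, n15, n16, n23, n25, n27, B0, B1, B2, B5, B6, B7, B9, pa3, pc0, hx, hd, ht]
      · rcases H.f30 with n24 | n24
        · rcases H.f27 with n25 | n25 | n25 | n25
          · linarith only [n0, n5, n11, n15, n18, n20, n23, n25, B0, B1, B2, B5, B6, B7, B8, pc0, pya, pyc, hx, hd, ht]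
          · rcases H.f26 with n26 | n26
            · linarith only [n9, n11, n12, n15, n18, n20, n25, n26, B0, B1, B2, B5, B6, B7, B8, B9, pa1, pc0, pya, hx, hd, ht]
            · linarith only [n5, n11, n15, n16, n23, n25, n26, B0, B1, B2, B5, B6, B7, B9, pa1, pc0, pya, hx, hd, ht]
          · linarith only [n0, n5, n11, n15, n16, n18, n20, n22, n24, n25, B0, B1, B2, B5, B6, B7, B8, pa3, pyc, hx, hd, ht]
          · rcases H.f31 with n26 | n26 | n26 | n26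
            · rcases H.f32 with n27 | n27
              · rcases H.f28 with n28 | n28 | n28 | n28
                · linarith only [n0, n9, n11, n15, n21, n22, n25, n26, n28, B0, B1, B2, B6, B7, B8, pa0, pa3, pyc, hx, hd, ht]
                · linarith only [n6, n11, n15, n17, n21, n22, n25, n27, n28, B0, B2, B5, B6, B7, B8, B9, pya, pyb, hx, hd, ht]
                · linarith only [n6, n11, n15, n17, n21, n22, n25, n27, n28, B0, B2, B5, B6, B7, B8, B9, pya, pyb, hx, hd, ht]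
                · rcases H.f83 with n29 | n29
                  · linarith only [n11, n15, n16, n18, n21, n22, n24, n25, n26, n28, n29, B0, B2, B5, B6, B7, B8, B9, pa3, hx, hd, ht]
                  · linarith only [n9, n11, n12, n15, n25, n27, n29, B0, B1, B2, B5, B6, B7, B9, pya, pyb, hx, hd, ht]
              · linarith only [n1, n5, n10, n27, B0, B3, B7, pyb, hx, hd, ht]
            · linarith only [n0, n5, n11, n15, n16, n25, n26, B0, B1, B2, B5, B6, B7, B9, pa1, pya, hx, hd, ht]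
            · linarith only [n5, n11, n12, n15, n16, n25, n26, B0, B1, B2, B5, B6, B7, B9, pa1, pya, hx, hd, ht]
            · linarith only [n5, n11, n15, n16, n21, n22, n25, n26, B0, B1, B2, B5, B6, B7, B8, B9, pa1, pya, pyc, hx, hd, ht]
        · linarith only [n5, n11, n12, n15, n16, n18, n21, n22, n24, B0, B1, B2, B4, B6, B7, B8, B9, pa1, pa3, hx, hd, ht]
    · linarith only [n5, n11, n12, n15, n16, n18, n20, n21, n22, B0, B1, B2, B5, B6, B7, B8, B9, pa1, pa3, hx, hd, ht]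
  · linarith only [n5, n11, n12, n15, n16, n19, n21, B0, B1, B2, B5, B6, B7, B9, pa1, pa3, hx, hd, ht]

theorem sub9 (a0 a1 a2 a3 a4 b0 b1 b2 b3 b4 c0 c1 c2 c3 c4 ya yb yc t x d : ℝ)
    (H : Facts a0 a1 a2 a3 a4 b0 b1 b2 b3 b4 c0 c1 c2 c3 c4 ya yb yc t)
    (HB : BaseC a0 a1 a2 a3 a4 b0 b1 b2 b3 b4 c0 c1 c2 c3 c4 ya yb yc x d)
    (hx : 0 ≤ x) (hd : 0 ≤ d) (ht : t = 6 / 11 + x + 1000 * d)
    (n0 : t < 1 / 2 * a0 + 1 / 2 * a1 + 1 / 2 * a2 + 1 / 2 * a3 + 1 / 2 * a4 + b1 + b2 + b3 + b4 + 1 / 2 * c0 + 1 / 2 * c1 + 1 / 2 * c2 + 1 / 2 * c3 + 1 / 2 * c4)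
    (n1 : t < 1 / 2 * a0 + 1 / 2 * a1 + 1 / 2 * a2 + 1 / 2 * a3 + 1 / 2 * a4 + b0 + b2 + b3 + b4 + 1 / 2 * c0 + 1 / 2 * c1 + 1 / 2 * c2 + 1 / 2 * c3 + 1 / 2 * c4)
    (n5 : t < 1 / 2 * a0 + 1 / 2 * a1 + 1 / 2 * a2 + 1 / 2 * a3 + 1 / 2 * a4 + b2 + b3 + b4 + 1 / 2 * c0 + 1 / 2 * c1 + 1 / 2 * c2 + 1 / 2 * c3 + 1 / 2 * c4)
    (n6 : t < a0 + a1 + a3 + a4 + b1 + b2 + b3 + b4 + c0 + c1 + c3 + c4)
    (n7 : t < 1 / 2 * a0 + 1 / 2 * a1 + 1 / 2 * a2 + 1 / 2 * a3 + 1 / 2 * a4 + 1 / 2 * b0 + 1 / 2 * b1 + 1 / 2 * b2 + 1 / 2 * b3 + 1 / 2 * b4 + c1 + c2 + c3 + c4)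
    (n9 : t < 1 / 2 * a0 + 1 / 2 * a1 + 1 / 2 * a2 + 1 / 2 * a3 + 1 / 2 * a4 + b1 + b3 + b4 + 1 / 2 * c0 + 1 / 2 * c1 + 1 / 2 * c2 + 1 / 2 * c3 + 1 / 2 * c4)
    (n10 : t < 1 / 2 * a0 + 1 / 2 * a1 + 1 / 2 * a2 + 1 / 2 * a3 + 1 / 2 * a4 + b0 + b3 + b4 + 1 / 2 * c0 + 1 / 2 * c1 + 1 / 2 * c2 + 1 / 2 * c3 + 1 / 2 * c4)
    (n11 : t < 1 / 2 * a0 + 1 / 2 * a1 + 1 / 2 * a2 + 1 / 2 * a3 + 1 / 2 * a4 + b3 + b4 + 1 / 2 * c0 + 1 / 2 * c1 + 1 / 2 * c2 + 1 / 2 * c3 + 1 / 2 * c4)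
    (n12 : t < a1 + a3 + a4 + b0 + b1 + b2 + b4 + c0 + c1 + c2 + c3 + c4)
    (n14 : t < 1 / 2 * a0 + 1 / 2 * a1 + 1 / 2 * a2 + 1 / 2 * a3 + 1 / 2 * a4 + 1 / 2 * b0 + 1 / 2 * b1 + 1 / 2 * b2 + 1 / 2 * b3 + 1 / 2 * b4 + c2 + c3 + c4)
    (n15 : t < a2 + a3 + a4 + 1 / 2 * b0 + 1 / 2 * b1 + 1 / 2 * b2 + 1 / 2 * b3 + 1 / 2 * b4 + 1 / 2 * c0 + 1 / 2 * c1 + 1 / 2 * c2 + 1 / 2 * c3 + 1 / 2 * c4) : False := by
  obtain ⟨B0, B1, B2, B3, B4, B5, B6, B7, B8, B9, pa0, pa1, pa2, pa3, pa4, pb0, pb1, pb2, pb3, pb4, pc0, pc1, pc2, pc3, pc4, pya, pyb, pyc⟩ := id HB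
  rcases H.f19 with n16 | n16
  · rcases H.f82 with n17 | n17
    · rcases H.f11 with n18 | n18
      · rcases H.f20 with n19 | n19
        · rcases H.f21 with n20 | n20
          · exact sub8 a0 a1 a2 a3 a4 b0 b1 b2 b3 b4 c0 c1 c2 c3 c4 ya yb yc t x d H HB hx hd ht n0 n1 n5 n6 n7 n9 n10 n11 n12 n14 n15 n16 n17 n18 n19 n20
          · rcases H.f28 with n21 | n21 | n21 | n21
            · rcases H.f34 with n22 | n22 | n22 | n22
              · linarith only [n0, n5, n11, n14, n15, n19, n20, n21, n22, B0, B1, B2, B5, B6, B7, B9, pc0, pyb, hx, hd, ht]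
              · linarith only [n0, n5, n11, n14, n15, n19, n20, n21, n22, B0, B2, B5, B6, B7, B9, pa0, pc0, pyb, hx, hd, ht]
              · linarith only [n0, n5, n11, n14, n15, n19, n20, n21, n22, B0, B2, B5, B6, B7, B9, pa0, pc0, pyb, hx, hd, ht]
              · linarith only [n0, n5, n11, n14, n15, n16, n19, n20, n21, n22, B0, B2, B5, B6, B7, B9, pa0, pc0, hx, hd, ht]
            · linarith only [n5, n6, n11, n14, n15, n20, n21, B0, B2, B5, B6, B7, B9, pc0, pya, pyb, hx, hd, ht]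
            · linarith only [n5, n6, n11, n14, n15, n20, n21, B0, B2, B5, B6, B7, B9, pc0, pya, pyb, hx, hd, ht]
            · rcases H.f35 with n22 | n22
              · linarith only [n9, n11, n12, n15, n16, n19, n20, n21, n22, B0, B2, B5, B6, B7, B9, pa1, pc0, pc3, pc4, hx, hd, ht]
              · linarith only [n0, n5, n9, n21, n22, B0, B2, B7, B9, pa3, pyb, hx, hd, ht]
        · rcases H.f36 with n20 | n20
          · linarith only [n10, n12, n15, n16, n19, n20, B0, B1, B5, B6, B9, pa1, pya, hx, hd, ht]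
          · linarith only [n0, n5, n11, n19, n20, B0, B2, B5, B7, pyb, hx, hd, ht]
      · rcases H.f26 with n19 | n19
        · linarith only [n7, n11, n12, n14, n16, n17, n18, n19, B0, B1, B2, B4, B6, B7, B8, B9, pa3, pya, hx, hd, ht]
        · linarith only [n5, n11, n12, n16, n18, n19, B0, B1, B2, B6, B7, B9, pa3, pc2, pya, hx, hd, ht]
    · rcases H.f70 with n18 | n18
      · linarith only [n5, n11, n12, n16, n17, n18, B0, B1, B2, B6, B7, pa3, pc2, pya, hx, hd, ht]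
      · linarith only [n5, n9, n11, n12, n17, n18, B0, B2, B7, B9, pa0, hx, hd, ht]
  · rcases H.f37 with n17 | n17 | n17 | n17
    · linarith only [n5, n9, n11, n12, n15, n17, B0, B1, B2, B6, B7, B9, pya, hx, hd, ht]
    · linarith only [n0, n5, n16, n17, B0, B3, B7, B9, pb2, hx, hd, ht]
    · linarith only [n12, n15, n16, n17, B0, B1, B3, B6, B7, B9, pb0, pb2, pya, hx, hd, ht]
    · linarith only [n12, n15, n16, n17, B0, B1, B3, B6, B9, pb1, pb2, pya, hx, hd, ht]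

theorem sub10 (a0 a1 a2 a3 a4 b0 b1 b2 b3 b4 c0 c1 c2 c3 c4 ya yb yc t x d : ℝ)
    (H : Facts a0 a1 a2 a3 a4 b0 b1 b2 b3 b4 c0 c1 c2 c3 c4 ya yb yc t)
    (HB : BaseC a0 a1 a2 a3 a4 b0 b1 b2 b3 b4 c0 c1 c2 c3 c4 ya yb yc x d)
    (hx : 0 ≤ x) (hd : 0 ≤ d) (ht : t = 6 / 11 + x + 1000 * d)
    (n0 : t < 1 / 2 * a0 + 1 / 2 * a1 + 1 / 2 * a2 + 1 / 2 * a3 + 1 / 2 * a4 + b1 + b2 + b3 + b4 + 1 / 2 * c0 + 1 / 2 * c1 + 1 / 2 * c2 + 1 / 2 * c3 + 1 / 2 * c4)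
    (n1 : t < 1 / 2 * a0 + 1 / 2 * a1 + 1 / 2 * a2 + 1 / 2 * a3 + 1 / 2 * a4 + b0 + b2 + b3 + b4 + 1 / 2 * c0 + 1 / 2 * c1 + 1 / 2 * c2 + 1 / 2 * c3 + 1 / 2 * c4)
    (n4 : t < a2 + a3 + a4 + b0 + b1 + b2 + b4 + c0 + c1 + c2 + c4)
    (n5 : t < 1 / 2 * a0 + 1 / 2 * a1 + 1 / 2 * a2 + 1 / 2 * a3 + 1 / 2 * a4 + b2 + b3 + b4 + 1 / 2 * c0 + 1 / 2 * c1 + 1 / 2 * c2 + 1 / 2 * c3 + 1 / 2 * c4)
    (n6 : t < a0 + a1 + a3 + a4 + b1 + b2 + b3 + b4 + c0 + c1 + c3 + c4)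
    (n7 : t < 1 / 2 * a0 + 1 / 2 * a1 + 1 / 2 * a2 + 1 / 2 * a3 + 1 / 2 * a4 + 1 / 2 * b0 + 1 / 2 * b1 + 1 / 2 * b2 + 1 / 2 * b3 + 1 / 2 * b4 + c1 + c2 + c3 + c4)
    (n8 : t < a1 + a2 + a3 + a4 + b0 + b1 + b2 + b4 + c0 + c2 + c3 + c4)
    (n9 : t < 1 / 2 * a0 + 1 / 2 * a1 + 1 / 2 * a2 + 1 / 2 * a3 + 1 / 2 * a4 + b1 + b3 + b4 + 1 / 2 * c0 + 1 / 2 * c1 + 1 / 2 * c2 + 1 / 2 * c3 + 1 / 2 * c4)
    (n10 : t < 1 / 2 * a0 + 1 / 2 * a1 + 1 / 2 * a2 + 1 / 2 * a3 + 1 / 2 * a4 + b0 + b3 + b4 + 1 / 2 * c0 + 1 / 2 * c1 + 1 / 2 * c2 + 1 / 2 * c3 + 1 / 2 * c4) : False := by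
  obtain ⟨B0, B1, B2, B3, B4, B5, B6, B7, B8, B9, pa0, pa1, pa2, pa3, pa4, pb0, pb1, pb2, pb3, pb4, pc0, pc1, pc2, pc3, pc4, pya, pyb, pyc⟩ := id HB
  rcases H.f16 with n11 | n11 | n11 | n11
  · rcases H.f80 with n12 | n12
    · rcases H.f81 with n13 | n13
      · rcases H.f13 with n14 | n14 | n14 | n14
        · rcases H.f18 with n15 | n15 | n15 | n15
          · exact sub9 a0 a1 a2 a3 a4 b0 b1 b2 b3 b4 c0 c1 c2 c3 c4 ya yb yc t x d H HB hx hd ht n0 n1 n5 n6 n7 n9 n10 n11 n12 n14 n15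
          · rcases H.f29 with n16 | n16
            · linarith only [n0, n5, n11, n15, n16, B0, B2, B6, B7, B9, pa2, pya, pyb, hx, hd, ht]
            · linarith only [n5, n9, n15, n16, B0, B2, B6, B7, pa0, pa3, pya, pyb, hx, hd, ht]
          · rcases H.f29 with n16 | n16
            · linarith only [n0, n5, n11, n15, n16, B0, B2, B6, B7, B9, pa2, pya, pyb, hx, hd, ht]
            · linarith only [n15, n16, B0, B6, B9, pa0, pa1, pa3, pya, hx, hd, ht]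
          · rcases H.f29 with n16 | n16
            · rcases H.f84 with n17 | n17
              · rcases H.f43 with n18 | n18
                · rcases H.f85 with n19 | n19
                  · rcases H.f86 with n20 | n20
                    · rcases H.f87 with n21 | n21
                      · linarith only [n5, n9, n11, n13, n15, n16, n18, n20, n21, B0, B2, B4, B6, B7, B8, B9, pc3, pyb, hx, hd, ht]
                      · rcases H.f88 with n22 | n22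
                        · linarith only [n4, n5, n9, n11, n13, n15, n17, n18, n21, n22, B0, B2, B4, B6, B7, B8, B9, pa2, pa3, hx, hd, ht]
                        · linarith only [n22, B0, B2, B5, pb0, pb1, pb2, pyb, hd, ht]
                    · linarith only [n4, n5, n11, n13, n15, n18, n19, n20, B0, B2, B4, B6, B7, B8, B9, pa0, pya, hx, hd, ht]
                  · linarith only [n4, n5, n11, n13, n15, n17, n18, n19, B0, B2, B4, B6, B7, B8, B9, pa0, pa2, pya, hx, hd, ht]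
                · linarith only [n16, n18, B0, pa0, pa2, hd, ht]
              · linarith only [n4, n17, B0, B3, pa0, pb3, pc3, hd, ht]
            · linarith only [n4, n5, n9, n11, n15, n16, B0, B1, B2, B7, B9, pa0, pa3, pa4, pc3, pya, hd, ht]
        · linarith only [n4, n12, n14, B0, B1, B5, B6, B9, pb3, pc0, pc3, pya, hx, hd, ht]
        · linarith only [n5, n9, n14, B0, B2, B5, B7, B9, pc0, pyb, hx, hd, ht]
        · linarith only [n5, n8, n9, n11, n14, B0, B2, B5, B7, B9, pa0, pc0, pc2, pc3, pc4, hx, hd, ht]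
      · linarith only [n13, B0, B1, pa0, pa2, pa3, pya, hd, ht]
    · rcases H.f70 with n13 | n13
      · linarith only [n0, n5, n11, n12, n13, B0, B1, B2, B6, B7, pa1, pa3, pya, pyb, hx, hd, ht]
      · linarith only [n5, n9, n12, n13, B0, B2, B7, B9, pyb, hx, hd, ht]
  · linarith only [n5, n9, n10, n11, B0, B7, B9, pyb, hx, hd, ht]
  · rcases H.f18 with n12 | n12 | n12 | n12
    · linarith only [n9, n10, n11, n12, B0, B1, B3, B6, B7, pa1, pa3, pb0, pya, pyb, hx, hd, ht]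
    · linarith only [n4, n5, n9, n10, n11, n12, B0, B3, B6, B7, pa3, pc3, pya, pyb, hx, hd, ht]
    · linarith only [n4, n9, n10, n11, n12, B0, B3, B6, B7, B9, pa2, pa3, pc3, pya, hx, hd, ht]
    · linarith only [n4, n9, n10, n11, n12, B0, B3, B6, B7, B9, pa3, pb3, pc3, pya, hx, hd, ht]
  · linarith only [n9, n10, n11, B0, B3, B7, pb0, pyb, hx, hd, ht]

theorem sub11 (a0 a1 a2 a3 a4 b0 b1 b2 b3 b4 c0 c1 c2 c3 c4 ya yb yc t x d : ℝ)
    (H : Facts a0 a1 a2 a3 a4 b0 b1 b2 b3 b4 c0 c1 c2 c3 c4 ya yb yc t)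
    (HB : BaseC a0 a1 a2 a3 a4 b0 b1 b2 b3 b4 c0 c1 c2 c3 c4 ya yb yc x d)
    (hx : 0 ≤ x) (hd : 0 ≤ d) (ht : t = 6 / 11 + x + 1000 * d)
    (n3 : t < 1 / 2 * a0 + 1 / 2 * a1 + 1 / 2 * a2 + 1 / 2 * a3 + 1 / 2 * a4 + 1 / 2 * b0 + 1 / 2 * b1 + 1 / 2 * b3 + 1 / 2 * b4 + c0 + c1 + c2 + c3 + c4)
    (n7 : t < 1 / 2 * a0 + 1 / 2 * a1 + 1 / 2 * a2 + 1 / 2 * a3 + 1 / 2 * a4 + 1 / 2 * b0 + 1 / 2 * b1 + 1 / 2 * b2 + 1 / 2 * b3 + 1 / 2 * b4 + c1 + c2 + c3 + c4)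
    (n9 : t < 5 / 4 * a0 + 5 / 4 * a1 + 5 / 4 * a2 + 5 / 4 * a3 + 5 / 4 * a4 - b1 - 3 * b3 + b4 + 5 / 4 * c0 + 5 / 4 * c1 + 5 / 4 * c2 + 5 / 4 * c3 + 5 / 4 * c4 - yb)
    (n12 : t < a2 + a3 + a4 + b0 + b2 + b4 + c0 + c2 + c4)
    (n13 : t < a0 + a1 + a3 + a4 + b0 + b1 + b3 + b4 + c2 + c3 + c4)
    (n14 : t < a1 + a3 + a4 + b0 + b1 + b3 + b4 + c0 + c1 + c3 + c4)
    (n15 : t < 1 / 2 * a0 + 1 / 2 * a1 + 1 / 2 * a2 + 1 / 2 * a3 + 1 / 2 * a4 + 1 / 2 * b0 + 1 / 2 * b1 + 1 / 2 * b2 + 1 / 2 * b3 + 1 / 2 * b4 + c2 + c3 + c4)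
    (n16 : t < a2 + a3 + a4 + b0 + b1 + b3 + b4 + c0 + c1 + c3 + c4)
    (n17 : t < a0 + a1 + a2 + a4 + b0 + b1 + b2 + b4 + c1 + c3 + c4)
    (n19 : t < a0 + a1 + a2 + a4 + b0 + b1 + b3 + b4 + c0 + c1 + c2 + c4)
    (n20 : t < a0 + a1 + a2 + a3 + a4 + 1 / 2 * b0 + 1 / 2 * b1 + 1 / 2 * b3 + 1 / 2 * b4 + 1 / 2 * c0 + 1 / 2 * c1 + 1 / 2 * c2 + 1 / 2 * c3 + 1 / 2 * c4)
    (n21 : t < a0 + a1 + a3 + a4 + b0 + b1 + b3 + b4 + c0 + c3 + c4)
    (n22 : t < a3 + a4 + b0 + b1 + b3 + b4 + c0 + c1 + c3 + c4) : False := by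
  obtain ⟨B0, B1, B2, B3, B4, B5, B6, B7, B8, B9, pa0, pa1, pa2, pa3, pa4, pb0, pb1, pb2, pb3, pb4, pc0, pc1, pc2, pc3, pc4, pya, pyb, pyc⟩ := id HB
  rcases H.f64 with n23 | n23 | n23 | n23
  · rcases H.f27 with n24 | n24 | n24 | n24
    · rcases H.f38 with n25 | n25
      · rcases H.f25 with n26 | n26 | n26 | n26
        · rcases H.f105 with n27 | n27
          · rcases H.f106 with n28 | n28 | n28 | n28
            · linarith only [n3, n7, n15, n19, n20, n23, n26, n28, B0, B1, B4, B6, B8, pa1, pa2, hx, hd, ht]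
            · linarith only [n7, n15, n19, n20, n22, n23, n28, B0, B4, B6, B8, pc2, pya, hx, hd, ht]
            · linarith only [n7, n15, n19, n20, n22, n23, n25, n28, B0, B4, B6, B8, pb3, pyc, hx, hd, ht]
            · rcases H.f107 with n29 | n29
              · rcases H.f108 with n30 | n30 | n30 | n30
                · linarith only [n3, n15, n19, n22, n23, n26, n28, n29, n30, B0, B4, B6, B8, hx, hd, ht]
                · linarith only [n3, n7, n15, n22, n23, n28, n29, n30, B0, B4, B6, B8, pya, hx, hd, ht]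
                · linarith only [n3, n7, n15, n22, n23, n24, n28, n30, B0, B4, B6, B8, pya, hx, hd, ht]
                · linarith only [n3, n7, n15, n23, n26, n28, n29, n30, B0, B4, B6, B8, pya, hx, hd, ht]
              · rcases H.f109 with n30 | n30 | n30 | n30
                · linarith only [n13, n20, n22, n23, n28, n30, B0, B4, B6, B8, pa3, pc1, pc2, pyc, hx, hd, ht]
                · linarith only [n3, n20, n23, n29, n30, B0, pa0, pa3, hx, hd, ht]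
                · linarith only [n7, n15, n26, n29, n30, B0, B4, B8, pa0, pa3, pyc, hx, hd, ht]
                · linarith only [n7, n12, n15, n20, n22, n23, n27, n28, n29, n30, B0, B2, B4, B6, B7, B8, pa0, pb3, pc2, hx, hd, ht]
          · linarith only [n3, n20, n27, B0, B3, B9, hx, hd, ht]
        · linarith only [n9, n14, n16, n24, n26, B0, B1, B3, B5, B6, B9, pc0, pya, hx, hd, ht]
        · linarith only [n20, n21, n23, n24, n26, B0, B5, B8, pa2, pc0, pyc, hx, hd, ht]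
        · linarith only [n15, n21, n23, n24, n26, B0, B5, B9, pa2, pc0, hx, hd, ht]
      · linarith only [n13, n22, n23, n25, B0, B1, B4, B6, B8, B9, pa0, pc1, pc2, pya, pyc, hx, hd, ht]
    · linarith only [n14, n16, n21, n23, n24, B0, B1, B5, B6, B8, B9, pa1, pc0, pya, pyc, hx, hd, ht]
    · linarith only [n14, n16, n19, n20, n21, n23, n24, B0, B1, B5, B6, B8, pa2, pc0, pya, hx, hd, ht]
    · linarith only [n14, n16, n17, n19, n20, n21, n22, n23, n24, B0, B1, B5, B6, B8, B9, pb3, hx, hd, ht]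
  · linarith only [n9, n20, n23, B0, B3, B9, hx, hd, ht]
  · rcases H.f17 with n24 | n24 | n24 | n24
    · rcases H.f18 with n25 | n25 | n25 | n25
      · rcases H.f110 with n26 | n26
        · linarith only [n7, n9, n14, n15, n23, n24, n25, n26, B0, B1, B3, B4, B6, B8, B9, pya, hx, hd, ht]
        · linarith only [n9, n14, n15, n19, n22, n23, n25, n26, B0, B1, B3, B6, B8, B9, pc2, hx, hd, ht]
      · linarith only [n9, n16, n22, n23, n25, B0, B3, B6, B9, pc2, pya, hx, hd, ht]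
      · linarith only [n9, n16, n22, n23, n25, B0, B3, B6, B9, pc2, pya, hx, hd, ht]
      · linarith only [n9, n16, n22, n23, n25, B0, B3, B6, B9, pc2, pya, hx, hd, ht]
    · linarith only [n9, n16, n22, n23, n24, B0, B3, B6, B9, pc2, pya, hx, hd, ht]
    · linarith only [n9, n16, n22, n23, n24, B0, B3, B6, B9, pc2, pya, hx, hd, ht]
    · linarith only [n9, n14, n16, n23, n24, B0, B3, B6, B9, pc2, pya, hx, hd, ht]
  · linarith only [n9, n14, n16, n23, B0, B1, B3, B6, B9, pc2, pya, hx, hd, ht]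

theorem sub12 (a0 a1 a2 a3 a4 b0 b1 b2 b3 b4 c0 c1 c2 c3 c4 ya yb yc t x d : ℝ)
    (H : Facts a0 a1 a2 a3 a4 b0 b1 b2 b3 b4 c0 c1 c2 c3 c4 ya yb yc t)
    (HB : BaseC a0 a1 a2 a3 a4 b0 b1 b2 b3 b4 c0 c1 c2 c3 c4 ya yb yc x d)
    (hx : 0 ≤ x) (hd : 0 ≤ d) (ht : t = 6 / 11 + x + 1000 * d)
    (n0 : t < 1 / 2 * a0 + 1 / 2 * a1 + 1 / 2 * a2 + 1 / 2 * a3 + 1 / 2 * a4 + b1 + b2 + b3 + b4 + 1 / 2 * c0 + 1 / 2 * c1 + 1 / 2 * c2 + 1 / 2 * c3 + 1 / 2 * c4)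
    (n1 : t < 1 / 2 * a0 + 1 / 2 * a1 + 1 / 2 * a2 + 1 / 2 * a3 + 1 / 2 * a4 + b0 + b2 + b3 + b4 + 1 / 2 * c0 + 1 / 2 * c1 + 1 / 2 * c2 + 1 / 2 * c3 + 1 / 2 * c4)
    (n3 : t < 1 / 2 * a0 + 1 / 2 * a1 + 1 / 2 * a2 + 1 / 2 * a3 + 1 / 2 * a4 + 1 / 2 * b0 + 1 / 2 * b1 + 1 / 2 * b3 + 1 / 2 * b4 + c0 + c1 + c2 + c3 + c4)
    (n4 : t < a2 + a3 + a4 + b0 + b1 + b2 + b4 + c0 + c1 + c2 + c4)
    (n5 : t < 1 / 2 * a0 + 1 / 2 * a1 + 1 / 2 * a2 + 1 / 2 * a3 + 1 / 2 * a4 + b2 + b3 + b4 + 1 / 2 * c0 + 1 / 2 * c1 + 1 / 2 * c2 + 1 / 2 * c3 + 1 / 2 * c4)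
    (n7 : t < 1 / 2 * a0 + 1 / 2 * a1 + 1 / 2 * a2 + 1 / 2 * a3 + 1 / 2 * a4 + 1 / 2 * b0 + 1 / 2 * b1 + 1 / 2 * b2 + 1 / 2 * b3 + 1 / 2 * b4 + c1 + c2 + c3 + c4)
    (n9 : t < 5 / 4 * a0 + 5 / 4 * a1 + 5 / 4 * a2 + 5 / 4 * a3 + 5 / 4 * a4 - b1 - 3 * b3 + b4 + 5 / 4 * c0 + 5 / 4 * c1 + 5 / 4 * c2 + 5 / 4 * c3 + 5 / 4 * c4 - yb)
    (n10 : t < 1 / 2 * a0 + 1 / 2 * a1 + 1 / 2 * a2 + 1 / 2 * a3 + 1 / 2 * a4 + b1 + b2 + b4 + 1 / 2 * c0 + 1 / 2 * c1 + 1 / 2 * c2 + 1 / 2 * c3 + 1 / 2 * c4)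
    (n12 : t < a2 + a3 + a4 + b0 + b2 + b4 + c0 + c2 + c4)
    (n13 : t < a0 + a1 + a3 + a4 + b0 + b1 + b3 + b4 + c2 + c3 + c4)
    (n14 : t < a1 + a3 + a4 + b0 + b1 + b3 + b4 + c0 + c1 + c3 + c4)
    (n15 : t < 1 / 2 * a0 + 1 / 2 * a1 + 1 / 2 * a2 + 1 / 2 * a3 + 1 / 2 * a4 + 1 / 2 * b0 + 1 / 2 * b1 + 1 / 2 * b2 + 1 / 2 * b3 + 1 / 2 * b4 + c2 + c3 + c4) : False := by
  obtain ⟨B0, B1, B2, B3, B4, B5, B6, B7, B8, B9, pa0, pa1, pa2, pa3, pa4, pb0, pb1, pb2, pb3, pb4, pc0, pc1, pc2, pc3, pc4, pya, pyb, pyc⟩ := id HB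
  rcases H.f14 with n16 | n16
  · rcases H.f22 with n17 | n17
    · rcases H.f101 with n18 | n18
      · rcases H.f102 with n19 | n19
        · rcases H.f91 with n20 | n20
          · rcases H.f60 with n21 | n21
            · rcases H.f63 with n22 | n22 | n22 | n22
              · rcases H.f31 with n23 | n23 | n23 | n23
                · rcases H.f103 with n24 | n24 | n24 | n24
                  · rcases H.f64 with n25 | n25 | n25 | n25
                    · linarith only [n14, n15, n18, n20, n21, n22, n23, n25, B0, B2, B4, B7, B8, pa0, pa2, pa3, pyc, hx, hd, ht]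
                    · linarith only [n9, n22, n23, n24, n25, B0, B3, B7, B9, hx, hd, ht]
                    · linarith only [n9, n20, n25, B0, B3, B9, hx, hd, ht]
                    · linarith only [n9, n20, n25, B0, B3, B9, hx, hd, ht]
                  · linarith only [n9, n10, n22, n23, n24, B0, B3, B7, B9, hx, hd, ht]
                  · linarith only [n9, n20, n24, B0, B3, B9, hx, hd, ht]
                  · linarith only [n9, n20, n24, B0, B3, B9, pb1, hx, hd, ht]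
                · linarith only [n9, n15, n18, n23, B0, B3, B4, B8, B9, pa2, pb3, pyc, hx, hd, ht]
                · linarith only [n9, n20, n23, B0, B3, B9, pb3, hx, hd, ht]
                · linarith only [n9, n20, n23, B0, B3, B9, pb3, hx, hd, ht]
              · linarith only [n9, n15, n18, n22, B0, B3, B4, B7, B8, B9, pa2, pyb, pyc, hx, hd, ht]
              · linarith only [n9, n20, n22, B0, B3, B7, B9, pyb, hx, hd, ht]
              · linarith only [n9, n20, n22, B0, B3, B7, B9, pyb, hx, hd, ht]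
            · linarith only [n0, n15, n18, n20, n21, B0, B3, B4, B7, B8, pa2, pb3, pyb, pyc, hx, hd, ht]
          · rcases H.f104 with n21 | n21
            · rcases H.f76 with n22 | n22
              · exact sub11 a0 a1 a2 a3 a4 b0 b1 b2 b3 b4 c0 c1 c2 c3 c4 ya yb yc t x d H HB hx hd ht n3 n7 n9 n12 n13 n14 n15 n16 n17 n19 n20 n21 n22
              · rcases H.f111 with n23 | n23 | n23 | n23
                · rcases H.f109 with n24 | n24 | n24 | n24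
                  · rcases H.f70 with n25 | n25
                    · linarith only [n3, n9, n22, n23, n24, n25, B0, B1, B3, B6, pa3, hx, hd, ht]
                    · linarith only [n9, n13, n18, n22, n23, n24, n25, B0, B1, B3, B4, B6, B8, pa3, pyc, hx, hd, ht]
                  · linarith only [n3, n5, n10, n13, n18, n22, n24, B0, B2, B4, B6, B7, B8, pa0, pa3, pya, pyc, hx, hd, ht]
                  · linarith only [n9, n13, n18, n22, n24, B0, B3, B4, B6, B8, B9, pa0, pa3, pya, pyc, hx, hd, ht]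
                  · linarith only [n22, n23, n24, B0, pa0, pa3, pya, hd, ht]
                · linarith only [n3, n5, n10, n13, n18, n22, n23, B0, B2, B4, B6, B7, B8, pa0, pa3, pya, pyc, hx, hd, ht]
                · linarith only [n9, n13, n18, n22, n23, B0, B3, B4, B6, B8, B9, pa0, pa3, pya, pyc, hx, hd, ht]
                · linarith only [n3, n4, n7, n9, n15, n16, n22, n23, B0, B3, B4, B8, pa0, pa3, pa4, pb3, pc2, pya, hd, ht]
            · rcases H.f112 with n22 | n22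
              · linarith only [n9, n10, n14, n15, n16, n17, n21, n22, B0, B1, B3, B5, B6, B7, B9, pa2, pb1, pc0, hx, hd, ht]
              · linarith only [n1, n5, n14, n15, n16, n20, n21, n22, B0, B1, B3, B5, B6, B7, pc0, pya, pyb, hx, hd, ht]
        · linarith only [n3, n15, n18, n19, B0, B3, B4, B8, pa2, pyc, hx, hd, ht]
      · linarith only [n0, n5, n9, n14, n16, n17, n18, B0, B1, B3, B5, B6, B7, B8, B9, pa0, pa2, pb3, pc3, pyc, hd, ht]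
    · linarith only [n5, n9, n10, n14, n16, n17, B0, B1, B3, B5, B6, B7, B9, pa0, pa2, pya, hd, ht]
  · linarith only [n16, B0, B1, pa0, pa2, pa3, pya, hd, ht]

theorem sub13 (a0 a1 a2 a3 a4 b0 b1 b2 b3 b4 c0 c1 c2 c3 c4 ya yb yc t x d : ℝ)
    (H : Facts a0 a1 a2 a3 a4 b0 b1 b2 b3 b4 c0 c1 c2 c3 c4 ya yb yc t)
    (HB : BaseC a0 a1 a2 a3 a4 b0 b1 b2 b3 b4 c0 c1 c2 c3 c4 ya yb yc x d)
    (hx : 0 ≤ x) (hd : 0 ≤ d) (ht : t = 6 / 11 + x + 1000 * d)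
    (n0 : t < 1 / 2 * a0 + 1 / 2 * a1 + 1 / 2 * a2 + 1 / 2 * a3 + 1 / 2 * a4 + b1 + b2 + b3 + b4 + 1 / 2 * c0 + 1 / 2 * c1 + 1 / 2 * c2 + 1 / 2 * c3 + 1 / 2 * c4)
    (n1 : t < 1 / 2 * a0 + 1 / 2 * a1 + 1 / 2 * a2 + 1 / 2 * a3 + 1 / 2 * a4 + b0 + b2 + b3 + b4 + 1 / 2 * c0 + 1 / 2 * c1 + 1 / 2 * c2 + 1 / 2 * c3 + 1 / 2 * c4)
    (n3 : t < 1 / 2 * a0 + 1 / 2 * a1 + 1 / 2 * a2 + 1 / 2 * a3 + 1 / 2 * a4 + 1 / 2 * b0 + 1 / 2 * b1 + 1 / 2 * b3 + 1 / 2 * b4 + c0 + c1 + c2 + c3 + c4)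
    (n4 : t < a2 + a3 + a4 + b0 + b1 + b2 + b4 + c0 + c1 + c2 + c4)
    (n5 : t < 1 / 2 * a0 + 1 / 2 * a1 + 1 / 2 * a2 + 1 / 2 * a3 + 1 / 2 * a4 + b2 + b3 + b4 + 1 / 2 * c0 + 1 / 2 * c1 + 1 / 2 * c2 + 1 / 2 * c3 + 1 / 2 * c4)
    (n7 : t < 1 / 2 * a0 + 1 / 2 * a1 + 1 / 2 * a2 + 1 / 2 * a3 + 1 / 2 * a4 + 1 / 2 * b0 + 1 / 2 * b1 + 1 / 2 * b2 + 1 / 2 * b3 + 1 / 2 * b4 + c1 + c2 + c3 + c4)
    (n8 : t < a1 + a2 + a3 + a4 + b0 + b1 + b2 + b4 + c0 + c2 + c3 + c4)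
    (n9 : t < 5 / 4 * a0 + 5 / 4 * a1 + 5 / 4 * a2 + 5 / 4 * a3 + 5 / 4 * a4 - b1 - 3 * b3 + b4 + 5 / 4 * c0 + 5 / 4 * c1 + 5 / 4 * c2 + 5 / 4 * c3 + 5 / 4 * c4 - yb) : False := by
  obtain ⟨B0, B1, B2, B3, B4, B5, B6, B7, B8, B9, pa0, pa1, pa2, pa3, pa4, pb0, pb1, pb2, pb3, pb4, pc0, pc1, pc2, pc3, pc4, pya, pyb, pyc⟩ := id HB
  rcases H.f37 with n10 | n10 | n10 | n10
  · rcases H.f99 with n11 | n11
    · rcases H.f100 with n12 | n12
      · rcases H.f98 with n13 | n13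
        · rcases H.f49 with n14 | n14
          · rcases H.f13 with n15 | n15 | n15 | n15
            · exact sub12 a0 a1 a2 a3 a4 b0 b1 b2 b3 b4 c0 c1 c2 c3 c4 ya yb yc t x d H HB hx hd ht n0 n1 n3 n4 n5 n7 n9 n10 n12 n13 n14 n15
            · linarith only [n4, n9, n12, n14, n15, B0, B1, B3, B5, B6, B8, B9, pb1, pb3, pc0, pc3, pya, hx, hd, ht]
            · linarith only [n0, n5, n10, n13, n14, n15, B0, B2, B5, B7, B8, pa0, pa2, pc0, pyb, pyc, hx, hd, ht]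
            · linarith only [n0, n8, n9, n11, n12, n13, n15, B0, B1, B3, B5, B6, B7, pa2, pb3, pc0, pc2, pc3, pc4, pya, hd, ht]
          · linarith only [n3, n9, n13, n14, B0, B3, B9, pc0, pc1, hd, ht]
        · linarith only [n13, B0, B5, pc0, pc2, pc3, pyc, hd, ht]
      · linarith only [n4, n12, B0, pa0, hd, ht]
    · linarith only [n4, n9, n11, B0, B1, B3, B4, B6, B7, B8, pa1, pa3, pb0, pb1, pc1, pc2, pya, pyb, pyc, hx, hd, ht]
  · linarith only [n0, n5, n9, n10, B0, B3, B7, B9, pyb, hx, hd, ht]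
  · rcases H.f113 with n11 | n11
    · rcases H.f58 with n12 | n12
      · rcases H.f114 with n13 | n13
        · rcases H.f11 with n14 | n14
          · rcases H.f65 with n15 | n15
            · rcases H.f14 with n16 | n16
              · rcases H.f115 with n17 | n17
                · rcases H.f18 with n18 | n18 | n18 | n18
                  · rcases H.f28 with n19 | n19 | n19 | n19
                    · linarith only [n9, n10, n18, n19, B0, B1, B3, B6, B7, B9, pya, pyb, hx, hd, ht]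
                    · linarith only [n3, n9, n10, n12, n14, n17, n18, n19, B0, B1, B3, B4, B6, B7, B8, pb0, pc2, pya, pyb, hx, hd, ht]
                    · linarith only [n9, n10, n12, n14, n17, n18, n19, B0, B3, B4, B6, B7, B8, B9, pa0, pb0, pc2, pya, pyb, hx, hd, ht]
                    · rcases H.f59 with n20 | n20
                      · linarith only [n9, n10, n12, n14, n17, n18, n19, n20, B0, B1, B3, B4, B6, B7, B8, pb0, pc2, pya, pyb, hx, hd, ht]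
                      · linarith only [n3, n9, n10, n12, n14, n17, n20, B0, B1, B3, B4, B6, B7, B8, pa3, pb0, pb4, pc2, pya, hx, hd, ht]
                  · linarith only [n9, n10, n16, n18, B0, B3, B6, B7, B9, pa3, pc2, pya, pyb, hx, hd, ht]
                  · linarith only [n9, n10, n16, n18, B0, B3, B6, B7, B9, pa3, pc2, pya, pyb, hx, hd, ht]
                  · linarith only [n9, n10, n16, n18, B0, B3, B6, B7, B9, pa3, pc2, pya, pyb, hx, hd, ht]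
                · linarith only [n9, n10, n13, n16, n17, B0, B1, B3, B5, B6, B7, B9, pa1, pc0, pc3, pc4, pya, pyb, hx, hd, ht]
              · linarith only [n4, n5, n9, n10, n15, n16, B0, B1, B3, B6, B7, B9, pa3, pb3, pc2, pc3, pya, hd, ht]
            · linarith only [n15, B0, B1, pa0, pa2, pa3, pya, hd, ht]
          · linarith only [n3, n9, n11, n14, B0, B3, B9, pb0, hd, ht]
        · linarith only [n0, n5, n9, n10, n13, B0, B2, B5, B7, B9, pc0, pc2, pc3, pc4, pyb, hd, ht]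
      · linarith only [n12, B0, B5, hd, ht]
    · linarith only [n3, n10, n11, B0, B3, pb0, pb1, pb4, pyb, hx, hd, ht]
  · linarith only [n3, n9, n10, B0, B3, B9, pb0, pb1, pyb, hd, ht]

theorem sub14 (a0 a1 a2 a3 a4 b0 b1 b2 b3 b4 c0 c1 c2 c3 c4 ya yb yc t x d : ℝ)
    (H : Facts a0 a1 a2 a3 a4 b0 b1 b2 b3 b4 c0 c1 c2 c3 c4 ya yb yc t)
    (HB : BaseC a0 a1 a2 a3 a4 b0 b1 b2 b3 b4 c0 c1 c2 c3 c4 ya yb yc x d)
    (hx : 0 ≤ x) (hd : 0 ≤ d) (ht : t = 6 / 11 + x + 1000 * d)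
    (n0 : t < 1 / 2 * a0 + 1 / 2 * a1 + 1 / 2 * a2 + 1 / 2 * a3 + 1 / 2 * a4 + b1 + b2 + b3 + b4 + 1 / 2 * c0 + 1 / 2 * c1 + 1 / 2 * c2 + 1 / 2 * c3 + 1 / 2 * c4)
    (n1 : t < 1 / 2 * a0 + 1 / 2 * a1 + 1 / 2 * a2 + 1 / 2 * a3 + 1 / 2 * a4 + b0 + b2 + b3 + b4 + 1 / 2 * c0 + 1 / 2 * c1 + 1 / 2 * c2 + 1 / 2 * c3 + 1 / 2 * c4)
    (n5 : t < 1 / 2 * a0 + 1 / 2 * a1 + 1 / 2 * a2 + 1 / 2 * a3 + 1 / 2 * a4 + b2 + b3 + b4 + 1 / 2 * c0 + 1 / 2 * c1 + 1 / 2 * c2 + 1 / 2 * c3 + 1 / 2 * c4)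
    (n9 : t < 1 / 2 * a0 + 1 / 2 * a1 + 1 / 2 * a2 + 1 / 2 * a3 + 1 / 2 * a4 - b3 + b4 + 5 / 4 * c0 + 5 / 4 * c1 + 5 / 4 * c2 + 5 / 4 * c3 + 5 / 4 * c4 - 1 / 2 * yb) : False := by
  obtain ⟨B0, B1, B2, B3, B4, B5, B6, B7, B8, B9, pa0, pa1, pa2, pa3, pa4, pb0, pb1, pb2, pb3, pb4, pc0, pc1, pc2, pc3, pc4, pya, pyb, pyc⟩ := id HB
  rcases H.f91 with n10 | n10
  · rcases H.f37 with n11 | n11 | n11 | n11
    · rcases H.f92 with n12 | n12
      · rcases H.f93 with n13 | n13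
        · rcases H.f13 with n14 | n14 | n14 | n14
          · rcases H.f27 with n15 | n15 | n15 | n15
            · linarith only [n5, n9, n10, n14, n15, B0, B4, B7, B8, pyb, pyc, hx, hd, ht]
            · linarith only [n1, n9, n10, n13, n15, B0, B3, B7, B8, pb0, pyb, pyc, hx, hd, ht]
            · linarith only [n1, n5, n9, n10, n13, n15, B0, B3, B7, B8, pyb, pyc, hx, hd, ht]
            · linarith only [n1, n5, n9, n10, n13, n15, B0, B3, B7, B8, pc1, pyb, pyc, hx, hd, ht]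
          · linarith only [n9, n10, n14, B0, B3, B5, B9, pb0, pc0, hx, hd, ht]
          · linarith only [n5, n9, n12, n13, n14, B0, B2, B5, B7, B8, pa3, pb3, pc0, pyb, hx, hd, ht]
          · linarith only [n1, n5, n9, n13, n14, B0, B3, B5, B7, B9, pc0, pc2, pyb, hx, hd, ht]
        · rcases H.f94 with n14 | n14
          · rcases H.f95 with n15 | n15
            · rcases H.f13 with n16 | n16 | n16 | n16
              · rcases H.f96 with n17 | n17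
                · rcases H.f97 with n18 | n18
                  · rcases H.f63 with n19 | n19 | n19 | n19
                    · linarith only [n5, n10, n13, n16, n17, n18, n19, B0, B2, B7, B8, B9, pyc, hx, hd, ht]
                    · linarith only [n5, n9, n11, n19, B0, B2, B7, B9, pyb, hx, hd, ht]
                    · linarith only [n9, n13, n16, n17, n19, B0, B3, B5, B7, B9, pb0, pc0, pyb, hx, hd, ht]
                    · linarith only [n1, n5, n9, n19, B0, B3, B7, B9, pyb, hx, hd, ht]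
                  · linarith only [n13, n14, n16, n18, B0, B3, B5, B8, pa0, pc0, pyc, hx, hd, ht]
                · linarith only [n9, n10, n13, n16, n17, B0, B3, B5, B9, pb0, pc0, hx, hd, ht]
              · linarith only [n9, n10, n16, B0, B3, B5, B9, pb0, pc0, hx, hd, ht]
              · linarith only [n0, n5, n11, n14, n15, n16, B0, B2, B5, B7, B8, pa0, pc0, pyb, pyc, hx, hd, ht]
              · linarith only [n5, n11, n13, n15, n16, B0, B2, B5, B7, B9, pc0, pc3, pc4, hx, hd, ht]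
            · linarith only [n5, n12, n13, n15, B0, B2, B5, B7, B9, pa3, pb3, pc0, pc3, pc4, pyb, hx, hd, ht]
          · linarith only [n14, B0, hd, ht]
      · linarith only [n9, n12, B0, B1, B3, B4, B6, B7, B8, pa0, pa1, pa2, pb3, pc1, pc2, pya, pyb, pyc, hx, hd, ht]
    · linarith only [n0, n5, n9, n11, B0, B2, B7, B9, pyb, hx, hd, ht]
    · linarith only [n9, n10, n11, B0, B3, B7, B9, pb0, pyb, hx, hd, ht]
    · linarith only [n0, n5, n9, n11, B0, B3, B7, B9, pyb, hx, hd, ht]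
  · linarith only [n1, n9, n10, B0, B3, B7, B9, pb0, pyb, hx, hd, ht]

theorem sub15 (a0 a1 a2 a3 a4 b0 b1 b2 b3 b4 c0 c1 c2 c3 c4 ya yb yc t x d : ℝ)
    (H : Facts a0 a1 a2 a3 a4 b0 b1 b2 b3 b4 c0 c1 c2 c3 c4 ya yb yc t)
    (HB : BaseC a0 a1 a2 a3 a4 b0 b1 b2 b3 b4 c0 c1 c2 c3 c4 ya yb yc x d)
    (hx : 0 ≤ x) (hd : 0 ≤ d) (ht : t = 6 / 11 + x + 1000 * d)
    (n0 : t < 1 / 2 * a0 + 1 / 2 * a1 + 1 / 2 * a2 + 1 / 2 * a3 + 1 / 2 * a4 + b1 + b2 + b3 + b4 + 1 / 2 * c0 + 1 / 2 * c1 + 1 / 2 * c2 + 1 / 2 * c3 + 1 / 2 * c4)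
    (n1 : t < 1 / 2 * a0 + 1 / 2 * a1 + 1 / 2 * a2 + 1 / 2 * a3 + 1 / 2 * a4 + b0 + b2 + b3 + b4 + 1 / 2 * c0 + 1 / 2 * c1 + 1 / 2 * c2 + 1 / 2 * c3 + 1 / 2 * c4)
    (n3 : t < 1 / 2 * a0 + 1 / 2 * a1 + 1 / 2 * a2 + 1 / 2 * a3 + 1 / 2 * a4 + 1 / 2 * b0 + 1 / 2 * b1 + 1 / 2 * b3 + 1 / 2 * b4 + c0 + c1 + c2 + c3 + c4)
    (n4 : t < a2 + a3 + a4 + b0 + b1 + b2 + b4 + c0 + c1 + c2 + c4)
    (n5 : t < 1 / 2 * a0 + 1 / 2 * a1 + 1 / 2 * a2 + 1 / 2 * a3 + 1 / 2 * a4 + b2 + b3 + b4 + 1 / 2 * c0 + 1 / 2 * c1 + 1 / 2 * c2 + 1 / 2 * c3 + 1 / 2 * c4)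
    (n9 : t < 5 / 4 * a0 + 5 / 4 * a1 + 5 / 4 * a2 + 5 / 4 * a3 + 5 / 4 * a4 - b3 + b4 + 1 / 2 * c0 + 1 / 2 * c1 + 1 / 2 * c2 + 1 / 2 * c3 + 1 / 2 * c4 - 1 / 2 * yb) : False := by
  obtain ⟨B0, B1, B2, B3, B4, B5, B6, B7, B8, B9, pa0, pa1, pa2, pa3, pa4, pb0, pb1, pb2, pb3, pb4, pc0, pc1, pc2, pc3, pc4, pya, pyb, pyc⟩ := id HB
  rcases H.f49 with n10 | n10
  · rcases H.f52 with n11 | n11
    · rcases H.f18 with n12 | n12 | n12 | n12
      · rcases H.f28 with n13 | n13 | n13 | n13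
        · linarith only [n3, n9, n12, n13, B0, B1, B3, B6, pb0, pya, hx, hd, ht]
        · linarith only [n1, n3, n9, n11, n13, B0, B3, B6, B7, pb0, pya, pyb, hx, hd, ht]
        · linarith only [n9, n11, n13, B0, B3, B6, B7, B9, pb0, pb3, pya, pyb, hx, hd, ht]
        · linarith only [n1, n3, n9, n11, n13, B0, B3, B6, B7, pa1, pb0, pya, pyb, hx, hd, ht]
      · linarith only [n1, n3, n9, n11, n12, B0, B3, B6, B7, pa2, pb0, pya, pyb, hx, hd, ht]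
      · linarith only [n9, n11, n12, B0, B3, B6, B7, B9, pa2, pb0, pb3, pya, pyb, hx, hd, ht]
      · linarith only [n1, n3, n9, n11, n12, B0, B3, B6, B7, pa2, pb0, pya, pyb, hx, hd, ht]
    · rcases H.f18 with n12 | n12 | n12 | n12
      · rcases H.f70 with n13 | n13
        · linarith only [n3, n5, n9, n10, n11, n12, n13, B0, B1, B6, B7, pc2, pya, pyb, hx, hd, ht]
        · rcases H.f98 with n14 | n14
          · rcases H.f50 with n15 | n15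
            · linarith only [n4, n9, n11, n12, n13, n14, n15, B0, B1, B3, B4, B6, B7, B8, pc1, pc2, pya, pyb, pyc, hx, hd, ht]
            · linarith only [n1, n3, n9, n10, n11, n12, n14, n15, B0, B3, B4, B8, pa0, pb0, pc1, pyc, hx, hd, ht]
          · linarith only [n0, n5, n9, n14, B0, B2, B5, B7, B9, pb3, pc0, pc2, pc3, pc4, pyb, hd, ht]
      · linarith only [n3, n5, n9, n11, n12, B0, B6, B7, pa0, pa3, pb3, pya, pyb, hx, hd, ht]
      · linarith only [n9, n10, n11, n12, B0, B3, B6, B9, pa0, pa3, pb0, pc2, pya, hx, hd, ht]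
      · linarith only [n3, n9, n11, n12, B0, B1, B3, pa0, pa3, pa4, pb0, pya, hd, ht]
  · rcases H.f53 with n11 | n11
    · linarith only [n10, n11, B0, B1, B6, B9, pa1, pa3, pya, hx, hd, ht]
    · linarith only [n1, n3, n5, n9, n10, n11, B0, B3, B7, pyb, hx, hd, ht]

end Pool.Agent.H705R2.ABC2
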