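import Mathlib
import Pool.Agent.H705R2.ABC2.Bd
import Pool.Agent.H705R2.ABC2.Tree1

/-!
# abc, exponent 6/11: the certificate (generated), part 2
-/

set_option linter.unusedVariables false

namespace Pool.Agent.H705R2.ABC2

theorem sub16 (a0 a1 a2 a3 a4 b0 b1 b2 b3 b4 c0 c1 c2 c3 c4 ya yb yc t x d : ℝ)
    (H : Facts a0 a1 a2 a3 a4 b0 b1 b2 b3 b4 c0 c1 c2 c3 c4 ya yb yc t)
    (HB : BaseC a0 a1 a2 a3 a4 b0 b1 b2 b3 b4 c0 c1 c2 c3 c4 ya yb yc x d)
    (hx : 0 ≤ x) (hd : 0 ≤ d) (ht : t = 6 / 11 + x + 1000 * d)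
    (n0 : t < 1 / 2 * a0 + 1 / 2 * a1 + 1 / 2 * a2 + 1 / 2 * a3 + 1 / 2 * a4 + b1 + b2 + b3 + b4 + 1 / 2 * c0 + 1 / 2 * c1 + 1 / 2 * c2 + 1 / 2 * c3 + 1 / 2 * c4)
    (n1 : t < 1 / 2 * a0 + 1 / 2 * a1 + 1 / 2 * a2 + 1 / 2 * a3 + 1 / 2 * a4 + b0 + b2 + b3 + b4 + 1 / 2 * c0 + 1 / 2 * c1 + 1 / 2 * c2 + 1 / 2 * c3 + 1 / 2 * c4)
    (n2 : t < a1 + a2 + a3 + a4 + b0 + b1 + b3 + b4 + c0 + c1 + c2 + c3 + c4)
    (n3 : t < 1 / 2 * a0 + 1 / 2 * a1 + 1 / 2 * a2 + 1 / 2 * a3 + 1 / 2 * a4 + 1 / 2 * b0 + 1 / 2 * b1 + 1 / 2 * b3 + 1 / 2 * b4 + c0 + c1 + c2 + c3 + c4)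
    (n4 : t < a2 + a3 + a4 + b0 + b1 + b2 + b4 + c0 + c1 + c2 + c4)
    (n5 : t < 1 / 2 * a0 + 1 / 2 * a1 + 1 / 2 * a2 + 1 / 2 * a3 + 1 / 2 * a4 + b2 + b3 + b4 + 1 / 2 * c0 + 1 / 2 * c1 + 1 / 2 * c2 + 1 / 2 * c3 + 1 / 2 * c4) : False := by
  obtain ⟨B0, B1, B2, B3, B4, B5, B6, B7, B8, B9, pa0, pa1, pa2, pa3, pa4, pb0, pb1, pb2, pb3, pb4, pc0, pc1, pc2, pc3, pc4, pya, pyb, pyc⟩ := id HB
  rcases H.f79 with n6 | n6
  · rcases H.f10 with n7 | n7 | n7 | n7
    · rcases H.f9 with n8 | n8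
      · rcases H.f12 with n9 | n9 | n9 | n9
        · rcases H.f15 with n10 | n10 | n10 | n10
          · exact sub10 a0 a1 a2 a3 a4 b0 b1 b2 b3 b4 c0 c1 c2 c3 c4 ya yb yc t x d H HB hx hd ht n0 n1 n4 n5 n6 n7 n8 n9 n10
          · linarith only [n1, n5, n9, n10, B0, B2, B7, B9, pyb, hx, hd, ht]
          · rcases H.f17 with n11 | n11 | n11 | n11
            · rcases H.f89 with n12 | n12
              · rcases H.f18 with n13 | n13 | n13 | n13
                · rcases H.f70 with n14 | n14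
                  · rcases H.f49 with n15 | n15
                    · linarith only [n1, n5, n9, n10, n13, n15, B0, B1, B3, B6, B7, pc2, pya, pyb, hx, hd, ht]
                    · linarith only [n5, n9, n11, n13, n14, n15, B0, B1, B2, B6, B7, pya, pyb, hx, hd, ht]
                  · linarith only [n1, n9, n10, n11, n13, n14, B0, B1, B3, B6, B7, pb0, pya, pyb, hx, hd, ht]
                · linarith only [n1, n5, n9, n10, n12, n13, B0, B3, B6, B7, pa3, pc1, pya, pyb, hx, hd, ht]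
                · linarith only [n1, n9, n10, n12, n13, B0, B3, B6, B7, pa3, pb0, pc1, pya, pyb, hx, hd, ht]
                · rcases H.f90 with n14 | n14
                  · linarith only [n1, n9, n10, n13, n14, B0, B3, B6, B7, pa3, pb0, pb3, pc3, pya, hx, hd, ht]
                  · linarith only [n4, n14, B0, pa0, hd, ht]
              · linarith only [n12, B0, B1, pa0, pa2, pa3, pya, hd, ht]
            · linarith only [n1, n4, n5, n9, n10, n11, B0, B2, B6, B7, pa3, pc3, pya, pyb, hx, hd, ht]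
            · linarith only [n1, n9, n10, n11, B0, B3, B6, B7, pa2, pa3, pb0, pya, pyb, hx, hd, ht]
            · rcases H.f76 with n12 | n12
              · linarith only [n2, n5, n8, n9, n10, n11, n12, B0, B3, B6, B7, pa2, pc1, pc2, pya, pyb, hx, hd, ht]
              · linarith only [n5, n9, n10, n11, n12, B0, B3, B6, B7, pa0, pa1, pa3, pb3, pya, pyb, hd, ht]
          · linarith only [n1, n9, n10, B0, B3, B7, pb0, pyb, hx, hd, ht]
        · exact sub14 a0 a1 a2 a3 a4 b0 b1 b2 b3 b4 c0 c1 c2 c3 c4 ya yb yc t x d H HB hx hd ht n0 n1 n5 n9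
        · exact sub15 a0 a1 a2 a3 a4 b0 b1 b2 b3 b4 c0 c1 c2 c3 c4 ya yb yc t x d H HB hx hd ht n0 n1 n3 n4 n5 n9
        · exact sub13 a0 a1 a2 a3 a4 b0 b1 b2 b3 b4 c0 c1 c2 c3 c4 ya yb yc t x d H HB hx hd ht n0 n1 n3 n4 n5 n7 n8 n9
      · linarith only [n8, B0, B2, pb0, pb1, pb2, pyb, hd, ht]
    · rcases H.f77 with n8 | n8
      · linarith only [n4, n7, n8, B0, B1, B5, B6, B9, pb0, pb3, pc0, pc3, pya, hx, hd, ht]
      · linarith only [n7, n8, B0, B1, B5, B6, B9, pa1, pa3, pc0, pya, hx, hd, ht]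
    · rcases H.f95 with n8 | n8
      · linarith only [n0, n5, n7, n8, B0, B2, B5, B7, B8, pb3, pc0, pc3, pyb, pyc, hx, hd, ht]
      · linarith only [n0, n5, n8, B0, B2, B5, B7, B9, pb3, pc0, pc2, pc3, pc4, pyb, hx, hd, ht]
    · linarith only [n0, n2, n3, n4, n5, n7, B0, B1, B2, B5, B6, B7, pa3, pc0, pc1, pc2, pc3, pc4, pya, hd, ht]
  · linarith only [n6, B0, B3, hd, ht]

theorem sub17 (a0 a1 a2 a3 a4 b0 b1 b2 b3 b4 c0 c1 c2 c3 c4 ya yb yc t x d : ℝ)
    (H : Facts a0 a1 a2 a3 a4 b0 b1 b2 b3 b4 c0 c1 c2 c3 c4 ya yb yc t)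
    (HB : BaseC a0 a1 a2 a3 a4 b0 b1 b2 b3 b4 c0 c1 c2 c3 c4 ya yb yc x d)
    (hx : 0 ≤ x) (hd : 0 ≤ d) (ht : t = 6 / 11 + x + 1000 * d)
    (n0 : t < 1 / 2 * a0 + 1 / 2 * a1 + 1 / 2 * a2 + 1 / 2 * a3 + 1 / 2 * a4 + b1 + b2 + b3 + b4 + 1 / 2 * c0 + 1 / 2 * c1 + 1 / 2 * c2 + 1 / 2 * c3 + 1 / 2 * c4)
    (n1 : t < 5 / 4 * a0 + 5 / 4 * a1 + 5 / 4 * a2 + 5 / 4 * a3 + 5 / 4 * a4 + 1 / 2 * b0 - 1 / 2 * b2 - b3 + b4 + 1 / 2 * c0 + 1 / 2 * c1 + 1 / 2 * c2 + 1 / 2 * c3 + 1 / 2 * c4 - 1 / 2 * yb)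
    (n2 : t < 1 / 2 * a0 + 1 / 2 * a1 + 1 / 2 * a2 + 1 / 2 * a3 + 1 / 2 * a4 + 1 / 2 * b0 + 1 / 2 * b1 + 1 / 2 * b2 + 1 / 2 * b3 + 1 / 2 * b4 + c0 + c1 + c2 + c3 + c4) : False := by
  obtain ⟨B0, B1, B2, B3, B4, B5, B6, B7, B8, B9, pa0, pa1, pa2, pa3, pa4, pb0, pb1, pb2, pb3, pb4, pc0, pc1, pc2, pc3, pc4, pya, pyb, pyc⟩ := id HB
  rcases H.f2 with n3 | n3
  · rcases H.f125 with n4 | n4
    · rcases H.f78 with n5 | n5
      · rcases H.f17 with n6 | n6 | n6 | n6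
        · rcases H.f57 with n7 | n7
          · rcases H.f89 with n8 | n8
            · rcases H.f126 with n9 | n9
              · rcases H.f7 with n10 | n10 | n10 | n10
                · rcases H.f80 with n11 | n11
                  · linarith only [n0, n1, n6, n9, n11, B0, B1, B3, B6, B7, pa3, pb1, pb2, pya, hx, hd, ht]
                  · linarith only [n0, n1, n9, n10, n11, B0, B1, B3, B6, B7, pa1, pa3, pya, pyb, hx, hd, ht]
                · linarith only [n1, n10, B0, B3, B7, pb0, pb2, pb3, pyb, hx, hd, ht]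
                · linarith only [n5, n6, n9, n10, B0, B1, B3, B6, B7, pa3, pb0, pb2, pc3, pya, pyb, hx, hd, ht]
                · linarith only [n1, n4, n9, n10, B0, B1, B3, B6, B7, pa3, pb0, pb2, pya, pyb, hx, hd, ht]
              · rcases H.f90 with n10 | n10
                · rcases H.f7 with n11 | n11 | n11 | n11
                  · rcases H.f71 with n12 | n12
                    · rcases H.f18 with n13 | n13 | n13 | n13
                      · linarith only [n0, n1, n6, n9, n11, n12, n13, B0, B1, B3, B5, B6, B7, pya, pyb, hx, hd, ht]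
                      · linarith only [n0, n1, n7, n11, n12, n13, B0, B3, B6, B7, pa3, pya, pyb, hx, hd, ht]
                      · linarith only [n0, n1, n7, n11, n13, B0, B3, B6, B7, pa2, pa3, pya, pyb, hx, hd, ht]
                      · linarith only [n0, n1, n7, n10, n11, n13, B0, B3, B6, B7, pa3, pc3, pya, pyb, hx, hd, ht]
                    · linarith only [n12, B0, B5, hd, ht]
                  · linarith only [n1, n11, B0, B3, B7, pb0, pb2, pb3, pyb, hx, hd, ht]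
                  · rcases H.f127 with n12 | n12
                    · linarith only [n1, n7, n8, n9, n10, n11, n12, B0, B1, B3, B5, B6, B7, pa3, pc1, pc3, pya, hx, hd, ht]
                    · rcases H.f128 with n13 | n13
                      · linarith only [n6, n11, n12, n13, B0, B1, B3, B6, B7, pa3, pb0, pb3, pc2, pya, pyb, hx, hd, ht]
                      · linarith only [n10, n11, n13, B0, B1, B3, B6, B7, pa1, pa3, pb0, pb3, pc3, pya, pyb, hx, hd, ht]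
                  · linarith only [n1, n4, n8, n11, B0, B1, B3, B6, B7, pa0, pa3, pb3, pc1, pya, pyb, hx, hd, ht]
                · linarith only [n5, n10, B0, pa0, hd, ht]
            · linarith only [n8, B0, B1, pa0, pa2, pa3, pya, hd, ht]
          · linarith only [n7, B0, B1, pa0, pa2, pa3, pya, hd, ht]
        · rcases H.f57 with n7 | n7
          · rcases H.f129 with n8 | n8
            · rcases H.f7 with n9 | n9 | n9 | n9
              · linarith only [n0, n1, n6, n7, n9, B0, B3, B6, B7, pa3, pb3, pya, pyb, hx, hd, ht]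
              · linarith only [n1, n9, B0, B3, B7, pb0, pb2, pb3, pyb, hx, hd, ht]
              · linarith only [n2, n6, n7, n8, n9, B0, B3, B6, B7, pa3, pb3, pya, pyb, hx, hd, ht]
              · linarith only [n1, n4, n8, n9, B0, B1, B3, B6, B7, pa0, pa3, pb3, pya, pyb, hx, hd, ht]
            · linarith only [n8, B0, B1, pa0, pa2, pa3, pya, hd, ht]
          · linarith only [n7, B0, B1, pa0, pa2, pa3, pya, hd, ht]
        · linarith only [n0, n1, n4, n6, B0, B3, B6, B7, pa0, pa2, pa3, pb3, pya, pyb, hx, hd, ht]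
        · linarith only [n0, n1, n3, n4, n6, B0, B3, B6, B7, pa2, pa3, pb3, pya, pyb, hx, hd, ht]
      · linarith only [n5, B0, B1, pa0, pa2, pa3, pya, hd, ht]
    · linarith only [n4, B0, B2, pb0, pb2, pb3, pyb, hd, ht]
  · linarith only [n3, B0, hd, ht]

theorem sub18 (a0 a1 a2 a3 a4 b0 b1 b2 b3 b4 c0 c1 c2 c3 c4 ya yb yc t x d : ℝ)
    (H : Facts a0 a1 a2 a3 a4 b0 b1 b2 b3 b4 c0 c1 c2 c3 c4 ya yb yc t)
    (HB : BaseC a0 a1 a2 a3 a4 b0 b1 b2 b3 b4 c0 c1 c2 c3 c4 ya yb yc x d)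
    (hx : 0 ≤ x) (hd : 0 ≤ d) (ht : t = 6 / 11 + x + 1000 * d)
    (n0 : t < 1 / 2 * a0 + 1 / 2 * a1 + 1 / 2 * a2 + 1 / 2 * a3 + 1 / 2 * a4 + b1 + b2 + b3 + b4 + 1 / 2 * c0 + 1 / 2 * c1 + 1 / 2 * c2 + 1 / 2 * c3 + 1 / 2 * c4)
    (n1 : t < 1 / 2 * a0 + 1 / 2 * a1 + 1 / 2 * a2 + 1 / 2 * a3 + 1 / 2 * a4 + b0 + b2 + b3 + b4 + 1 / 2 * c0 + 1 / 2 * c1 + 1 / 2 * c2 + 1 / 2 * c3 + 1 / 2 * c4) : False := by
  obtain ⟨B0, B1, B2, B3, B4, B5, B6, B7, B8, B9, pa0, pa1, pa2, pa3, pa4, pb0, pb1, pb2, pb3, pb4, pc0, pc1, pc2, pc3, pc4, pya, pyb, pyc⟩ := id HB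
  rcases H.f2 with n2 | n2
  · rcases H.f3 with n3 | n3
    · rcases H.f4 with n4 | n4
      · rcases H.f5 with n5 | n5 | n5 | n5
        · exact sub7 a0 a1 a2 a3 a4 b0 b1 b2 b3 b4 c0 c1 c2 c3 c4 ya yb yc t x d H HB hx hd ht n0 n1 n2 n3 n4 n5
        · rcases H.f77 with n6 | n6
          · linarith only [n4, n5, n6, B0, B1, B5, B6, B9, pb0, pb3, pya, hx, hd, ht]
          · linarith only [n5, n6, B0, B1, B5, B6, B9, pa1, pa3, pya, hx, hd, ht]
        · rcases H.f7 with n6 | n6 | n6 | n6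
          · linarith only [n0, n3, n5, n6, B0, B2, B5, B7, B9, pyb, hx, hd, ht]
          · linarith only [n1, n3, n6, B0, B3, B7, pb2, pyb, hx, hd, ht]
          · linarith only [n1, n5, n6, B0, B3, B5, B7, pb3, pc0, pc1, pc2, pc3, pc4, pyb, hx, hd, ht]
          · linarith only [n1, n6, B0, B3, B7, pb2, pb3, pyb, hx, hd, ht]
        · linarith only [n0, n1, n2, n4, n5, B0, B1, B2, B5, B6, B7, pa3, pb3, pc0, pc1, pc2, pc3, pc4, pya, pyb, hd, ht]
      · linarith only [n4, B0, B1, pa0, pa2, pa3, pya, hd, ht]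
    · rcases H.f78 with n4 | n4
      · rcases H.f7 with n5 | n5 | n5 | n5
        · exact sub16 a0 a1 a2 a3 a4 b0 b1 b2 b3 b4 c0 c1 c2 c3 c4 ya yb yc t x d H HB hx hd ht n0 n1 n2 n3 n4 n5
        · rcases H.f116 with n6 | n6
          · rcases H.f117 with n7 | n7
            · linarith only [n1, n5, n6, n7, B0, B3, B4, B7, B8, B9, pb3, pc3, pyb, pyc, hx, hd, ht]
            · linarith only [n1, n5, n6, n7, B0, B3, B4, B7, B8, pb3, pc1, pc2, pyb, pyc, hx, hd, ht]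
          · linarith only [n1, n6, B0, B2, B7, pb2, pb3, pyb, hx, hd, ht]
        · rcases H.f17 with n6 | n6 | n6 | n6
          · rcases H.f18 with n7 | n7 | n7 | n7
            · linarith only [n1, n3, n5, n6, n7, B0, B1, B3, B6, B7, pa3, pb0, pya, pyb, hx, hd, ht]
            · linarith only [n1, n3, n4, n5, n7, B0, B3, B6, B7, pa3, pb2, pb3, pc3, pya, hx, hd, ht]
            · linarith only [n1, n5, n7, B0, B3, B6, B7, pa2, pa3, pb0, pb3, pya, pyb, hx, hd, ht]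
            · linarith only [n1, n3, n4, n5, n7, B0, B3, B6, B7, pa3, pb0, pb3, pc3, pya, hx, hd, ht]
          · linarith only [n1, n3, n4, n5, n6, B0, B3, B6, B7, pa3, pb2, pb3, pc3, pya, hx, hd, ht]
          · linarith only [n1, n5, n6, B0, B3, B6, B7, pa2, pa3, pb0, pb3, pya, pyb, hx, hd, ht]
          · linarith only [n1, n2, n3, n4, n5, n6, B0, B3, B6, B7, pa1, pa3, pb3, pc3, pya, hx, hd, ht]
        · linarith only [n1, n5, B0, B3, B7, pb2, pb3, pyb, hx, hd, ht]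
      · linarith only [n4, B0, B1, pa0, pa2, pa3, pya, hd, ht]
  · linarith only [n2, B0, hd, ht]

theorem sub19 (a0 a1 a2 a3 a4 b0 b1 b2 b3 b4 c0 c1 c2 c3 c4 ya yb yc t x d : ℝ)
    (H : Facts a0 a1 a2 a3 a4 b0 b1 b2 b3 b4 c0 c1 c2 c3 c4 ya yb yc t)
    (HB : BaseC a0 a1 a2 a3 a4 b0 b1 b2 b3 b4 c0 c1 c2 c3 c4 ya yb yc x d)
    (hx : 0 ≤ x) (hd : 0 ≤ d) (ht : t = 6 / 11 + x + 1000 * d)
    (n0 : t < 1 / 2 * a0 + 1 / 2 * a1 + 1 / 2 * a2 + 1 / 2 * a3 + 1 / 2 * a4 + b1 + b2 + b3 + b4 + 1 / 2 * c0 + 1 / 2 * c1 + 1 / 2 * c2 + 1 / 2 * c3 + 1 / 2 * c4) : False := by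
  obtain ⟨B0, B1, B2, B3, B4, B5, B6, B7, B8, B9, pa0, pa1, pa2, pa3, pa4, pb0, pb1, pb2, pb3, pb4, pc0, pc1, pc2, pc3, pc4, pya, pyb, pyc⟩ := id HB
  rcases H.f1 with n1 | n1 | n1 | n1
  · exact sub18 a0 a1 a2 a3 a4 b0 b1 b2 b3 b4 c0 c1 c2 c3 c4 ya yb yc t x d H HB hx hd ht n0 n1
  · rcases H.f118 with n2 | n2
    · rcases H.f7 with n3 | n3 | n3 | n3
      · rcases H.f119 with n4 | n4
        · rcases H.f94 with n5 | n5
          · rcases H.f120 with n6 | n6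
            · linarith only [n0, n1, n3, n4, n6, B0, B3, B4, B7, B8, B9, pyb, pyc, hx, hd, ht]
            · linarith only [n0, n1, n3, n5, n6, B0, B5, B7, B9, pa0, pyb, hx, hd, ht]
          · linarith only [n5, B0, hd, ht]
        · linarith only [n4, B0, B5, pc0, pc2, pc3, pyc, hd, ht]
      · rcases H.f121 with n4 | n4
        · linarith only [n0, n3, n4, B0, B3, B7, B9, pb3, pyb, hx, hd, ht]
        · rcases H.f122 with n5 | n5
          · rcases H.f123 with n6 | n6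
            · rcases H.f124 with n7 | n7
              · linarith only [n1, n3, n5, n7, B0, B3, B4, B7, B8, B9, pb3, pc3, pyb, pyc, hx, hd, ht]
              · linarith only [n6, n7, B0, hd, ht]
            · linarith only [n6, B0, hd, ht]
          · linarith only [n2, n4, n5, B0, B2, B5, B7, B9, pb3, pyb, hx, hd, ht]
      · linarith only [n1, n3, B0, B3, B7, pb0, pb2, pb3, pb4, hx, hd, ht]
      · rcases H.f121 with n4 | n4
        · linarith only [n1, n2, n3, n4, B0, B3, B7, pb3, pb4, hx, hd, ht]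
        · linarith only [n2, n3, n4, B0, B3, B7, B9, pb3, pyb, hx, hd, ht]
    · linarith only [n2, B0, B2, pb0, pb2, pb3, pyb, hd, ht]
  · rcases H.f5 with n2 | n2 | n2 | n2
    · exact sub17 a0 a1 a2 a3 a4 b0 b1 b2 b3 b4 c0 c1 c2 c3 c4 ya yb yc t x d H HB hx hd ht n0 n1 n2
    · rcases H.f17 with n3 | n3 | n3 | n3
      · rcases H.f130 with n4 | n4
        · linarith only [n1, n2, n3, n4, B0, B1, B3, B5, B6, pa3, pya, hx, hd, ht]
        · linarith only [n4, B0, B1, pa0, pa2, pa3, pya, hd, ht]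
      · linarith only [n1, n2, n3, B0, B3, B5, B6, pa2, pa3, pya, hx, hd, ht]
      · linarith only [n1, n2, n3, B0, B3, B5, B6, pa2, pa3, pya, hx, hd, ht]
      · linarith only [n1, n2, n3, B0, B3, B5, B6, pa1, pa2, pa3, pya, hx, hd, ht]
    · linarith only [n0, n1, n2, B0, B2, B5, B7, pb2, pb3, pb4, hx, hd, ht]
    · linarith only [n0, n2, B0, B1, B2, B5, B6, B7, pa1, pa2, pa3, pb2, pb3, pb4, pc0, pc1, pc2, pc3, pc4, pya, hd, ht]
  · rcases H.f131 with n2 | n2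
    · rcases H.f121 with n3 | n3
      · linarith only [n1, n2, n3, B0, B3, B7, pb2, pb3, pyb, hx, hd, ht]
      · linarith only [n1, n3, B0, B3, B9, pa0, pa1, pa2, pa3, pa4, hx, hd, ht]
    · rcases H.f132 with n3 | n3
      · rcases H.f133 with n4 | n4
        · linarith only [n1, n2, n3, n4, B0, B1, B3, B6, pa3, pb0, pb2, pb3, pb4, pya, hx, hd, ht]
        · linarith only [n4, B0, B5, hd, ht]
      · linarith only [n3, B0, hd, ht]

theorem no_fail_coords (a0 a1 a2 a3 a4 b0 b1 b2 b3 b4 c0 c1 c2 c3 c4 ya yb yc t x d : ℝ)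
    (H : Facts a0 a1 a2 a3 a4 b0 b1 b2 b3 b4 c0 c1 c2 c3 c4 ya yb yc t)
    (HB : BaseC a0 a1 a2 a3 a4 b0 b1 b2 b3 b4 c0 c1 c2 c3 c4 ya yb yc x d)
    (hx : 0 ≤ x) (hd : 0 ≤ d) (ht : t = 6 / 11 + x + 1000 * d) : False := by
  obtain ⟨B0, B1, B2, B3, B4, B5, B6, B7, B8, B9, pa0, pa1, pa2, pa3, pa4, pb0, pb1, pb2, pb3, pb4, pc0, pc1, pc2, pc3, pc4, pya, pyb, pyc⟩ := id HB
  rcases H.f0 with n0 | n0 | n0 | n0
  · exact sub19 a0 a1 a2 a3 a4 b0 b1 b2 b3 b4 c0 c1 c2 c3 c4 ya yb yc t x d H HB hx hd ht n0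
  · rcases H.f134 with n1 | n1
    · rcases H.f99 with n2 | n2
      · linarith only [n0, n1, n2, B0, B3, B4, B7, B8, B9, pa0, pb0, pc3, pyc, hx, hd, ht]
      · linarith only [n0, n2, B0, B3, B4, B7, B8, B9, pb0, pb2, pc1, pc2, pyb, pyc, hx, hd, ht]
    · rcases H.f135 with n2 | n2
      · rcases H.f136 with n3 | n3
        · rcases H.f137 with n4 | n4
          · linarith only [n0, n1, n2, n3, n4, B0, B2, B4, B7, B8, B9, pa0, pa1, pb3, pc3, pyb, hx, hd, ht]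
          · linarith only [n0, n2, n4, B0, B3, B4, B7, B8, B9, pa1, pb3, pc3, pyb, pyc, hx, hd, ht]
        · linarith only [n0, n2, n3, B0, B3, B4, B7, B8, B9, pa0, pa2, pa3, pa4, pb0, pb3, pc1, pc2, pyb, pyc, hd, ht]
      · linarith only [n2, B0, B5, hd, ht]
  · rcases H.f17 with n1 | n1 | n1 | n1
    · rcases H.f129 with n2 | n2
      · rcases H.f18 with n3 | n3 | n3 | n3
        · rcases H.f138 with n4 | n4
          · linarith only [n0, n1, n3, n4, B0, B1, B3, B6, B7, pa3, pb0, pb3, pya, pyb, hx, hd, ht]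
          · linarith only [n0, n2, n4, B0, B1, B3, B6, B7, pa1, pa3, pb0, pb3, pya, pyb, hx, hd, ht]
        · linarith only [n0, n2, n3, B0, B3, B6, B7, pa3, pb1, pb3, pc0, pc1, pc2, pc3, pc4, pya, pyb, hx, hd, ht]
        · linarith only [n0, n2, n3, B0, B3, B6, B7, pa2, pa3, pb0, pb3, pya, pyb, hx, hd, ht]
        · linarith only [n0, n2, n3, B0, B3, B6, B7, pa3, pb0, pb1, pb3, pya, pyb, hx, hd, ht]
      · linarith only [n2, B0, B1, pa0, pa2, pa3, pya, hd, ht]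
    · rcases H.f5 with n2 | n2 | n2 | n2
      · rcases H.f129 with n3 | n3
        · linarith only [n0, n1, n2, n3, B0, B3, B6, B7, pa3, pb1, pb3, pya, pyb, hx, hd, ht]
        · linarith only [n3, B0, B1, pa0, pa2, pa3, pya, hd, ht]
      · linarith only [n1, n2, B0, B5, B6, B9, pa2, pa3, pya, hx, hd, ht]
      · linarith only [n0, n2, B0, B3, B5, B7, pb0, pb2, pb3, pyb, hx, hd, ht]
      · linarith only [n0, n1, n2, B0, B5, B6, B7, pa2, pa3, pb2, pb3, pc0, pc1, pc2, pc3, pc4, pya, pyb, hd, ht]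
    · linarith only [n0, n1, B0, B3, B6, B7, pa2, pa3, pb0, pb2, pb3, pya, pyb, hx, hd, ht]
    · rcases H.f132 with n2 | n2
      · rcases H.f57 with n3 | n3
        · linarith only [n0, n1, n2, n3, B0, B3, B6, B7, pa2, pa3, pb0, pb2, pya, pyb, hx, hd, ht]
        · linarith only [n0, n1, n3, B0, B3, B6, B7, pa0, pa2, pa3, pb0, pb2, pb3, pya, pyb, hd, ht]
      · linarith only [n2, B0, hd, ht]
  · linarith only [n0, B0, B1, B3, B4, B6, B8, pa1, pa2, pa3, pc1, pc2, pc3, pc4, pya, hd, ht]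

end Pool.Agent.H705R2.ABC2
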