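import Mathlib
import Pool.Agent.H705R2.ABC.Main
import Pool.Agent.H705R2.ABC2.Cells
import Pool.Agent.H705R2.ABC2.Fin2

/-!
# The exceptional set in the abc conjecture: exponent 6/11
-/

namespace Pool.Agent.H705R2.ABC2

open Finset Pool.Agent.H785R2.ABC Pool.Agent.H705R2.ABC

theorem stmtMcell' : StmtMcell := stmtMcell_of basics stmtA4' (stmtM1_of basics stmtA4' stmtD')

/-- For every real `lam` the number of abc-triples with `c ≤ X` and `rad (abc) ≤ c ^ lam` is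
`O (X ^ (6/11 + max (lam - 1) 0 + ε))`. -/
theorem main2 (lam : ℝ) : StmtCount lam (6 / 11 + max (lam - 1) 0) := by
  refine count_of2 basics lam _ ?_
    (cell_bound basics (PO.stmtPoly_of basics) stmtMcell' stmtEst' stmtDc' lam)
  have := le_max_right (lam - 1) 0
  linarith

/-- the abc-triples with `c ≤ X` and `rad (abc) ≤ B * c ^ lam` -/
def ExcB (B lam : ℝ) (X : ℕ) : Set (ℕ × ℕ × ℕ) :=
  {t | 0 < t.1 ∧ 0 < t.2.1 ∧ Nat.Coprime t.1 t.2.1 ∧ t.1 + t.2.1 = t.2.2 ∧ t.2.2 ≤ X ∧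
    (rad (t.1 * t.2.1 * t.2.2) : ℝ) ≤ B * (t.2.2 : ℝ) ^ lam}

theorem excB_finite (B lam : ℝ) (X : ℕ) : (ExcB B lam X).Finite := by
  refine Set.Finite.subset (Finset.finite_toSet
    ((range (X + 1)) ×ˢ (range (X + 1)) ×ˢ (range (X + 1)))) ?_
  rintro ⟨a, b, c⟩ ⟨h1, h2, h3, h4, h5, h6⟩
  simp only at h1 h2 h4 h5
  simp only [coe_product, Set.mem_prod, coe_range, Set.mem_Iio]
  omega

theorem count_B (B lam ε : ℝ) (hε : 0 < ε) : ∃ C : ℝ, ∀ X : ℕ, 1 ≤ X →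
    ((ExcB B lam X).ncard : ℝ) ≤ C * (X : ℝ) ^ (6 / 11 + max (lam - 1) 0 + ε) := by
  obtain ⟨C, hC⟩ := main2 (lam + ε / 2) (ε / 2) (by positivity)
  set B' : ℝ := max B 1 with hB'
  have hB1 : 1 ≤ B' := le_max_right _ _
  set c0 : ℕ := ⌈B' ^ (2 / ε)⌉₊ with hc0
  have hθ : 6 / 11 + max (lam + ε / 2 - 1) 0 + ε / 2 ≤ 6 / 11 + max (lam - 1) 0 + ε := by
    have : max (lam + ε / 2 - 1) 0 ≤ max (lam - 1) 0 + ε / 2 := by
      apply max_le
      · have := le_max_left (lam - 1) 0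
        linarith
      · have := le_max_right (lam - 1) 0
        linarith
    linarith
  have hθ0 : 0 ≤ 6 / 11 + max (lam - 1) 0 + ε := by
    have := le_max_right (lam - 1) 0
    linarith
  refine ⟨|C| + ((ExcB B lam c0).ncard : ℝ), fun X hX => ?_⟩
  have hX1 : (1 : ℝ) ≤ X := by exact_mod_cast hX
  set A : Set (ℕ × ℕ × ℕ) := {t : ℕ × ℕ × ℕ | IsABCTriple t.1 t.2.1 t.2.2 ∧ t.2.2 ≤ X ∧
      (rad (t.1 * t.2.1 * t.2.2) : ℝ) ≤ (t.2.2 : ℝ) ^ (lam + ε / 2)} with hA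
  have hAfin : A.Finite := by
    refine Set.Finite.subset (Finset.finite_toSet
      ((range (X + 1)) ×ˢ (range (X + 1)) ×ˢ (range (X + 1)))) ?_
    rintro ⟨a, b, c⟩ ⟨⟨h1, h2, h3, h4, h5⟩, h6, h7⟩
    simp only at h1 h2 h4 h6
    simp only [coe_product, Set.mem_prod, coe_range, Set.mem_Iio]
    omega
  have hsub : ExcB B lam X ⊆ A ∪ ExcB B lam c0 := by
    rintro ⟨a, b, c⟩ ⟨ha, hb, hab, habc, hc, hr⟩
    simp only at ha hb hab habc hc hr
    by_cases hcc : c ≤ c0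
    · right
      exact ⟨ha, hb, hab, habc, hcc, hr⟩
    · left
      push Not at hcc
      subst habc
      have hcpos : 0 < a + b := Nat.add_pos_left ha b
      have hcr : (0 : ℝ) < ((a + b : ℕ) : ℝ) := by exact_mod_cast hcpos
      refine ⟨⟨ha, hb, hcpos, rfl, hab, ?_, ?_⟩, hc, ?_⟩
      · simpa using hab
      · simpa using hab.symm
      · have h1 : B' ^ (2 / ε) ≤ ((a + b : ℕ) : ℝ) :=
          (Nat.le_ceil _).trans (by exact_mod_cast hcc.le)
        have h2 : B' ≤ ((a + b : ℕ) : ℝ) ^ (ε / 2) := by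
          have h3 := Real.rpow_le_rpow (by positivity) h1 (z := ε / 2) (by positivity)
          rw [← Real.rpow_mul (by linarith)] at h3
          have h4 : 2 / ε * (ε / 2) = 1 := by field_simp
          rwa [h4, Real.rpow_one] at h3
        calc (rad (a * b * (a + b)) : ℝ) ≤ B * ((a + b : ℕ) : ℝ) ^ lam := hr
          _ ≤ B' * ((a + b : ℕ) : ℝ) ^ lam :=
              mul_le_mul_of_nonneg_right (le_max_left _ _) (Real.rpow_nonneg hcr.le _)
          _ ≤ ((a + b : ℕ) : ℝ) ^ (ε / 2) * ((a + b : ℕ) : ℝ) ^ lam :=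
              mul_le_mul_of_nonneg_right h2 (Real.rpow_nonneg hcr.le _)
          _ = ((a + b : ℕ) : ℝ) ^ (lam + ε / 2) := by
              rw [← Real.rpow_add hcr]
              congr 1
              ring
  have h1 : ((ExcB B lam X).ncard : ℝ) ≤ (A.ncard : ℝ) + ((ExcB B lam c0).ncard : ℝ) := by
    have h2 := Set.ncard_le_ncard hsub (hAfin.union (excB_finite B lam c0))
    have h3 := Set.ncard_union_le A (ExcB B lam c0)
    exact_mod_cast h2.trans h3
  have h2 : (A.ncard : ℝ) ≤ |C| * (X : ℝ) ^ (6 / 11 + max (lam - 1) 0 + ε) := by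
    calc (A.ncard : ℝ) ≤ C * (X : ℝ) ^ (6 / 11 + max (lam + ε / 2 - 1) 0 + ε / 2) := hC X hX
      _ ≤ |C| * (X : ℝ) ^ (6 / 11 + max (lam + ε / 2 - 1) 0 + ε / 2) :=
          mul_le_mul_of_nonneg_right (le_abs_self C) (Real.rpow_nonneg (by linarith) _)
      _ ≤ |C| * (X : ℝ) ^ (6 / 11 + max (lam - 1) 0 + ε) :=
          mul_le_mul_of_nonneg_left (Real.rpow_le_rpow_of_exponent_le hX1 hθ) (abs_nonneg C)
  have h3 : ((ExcB B lam c0).ncard : ℝ) ≤
      ((ExcB B lam c0).ncard : ℝ) * (X : ℝ) ^ (6 / 11 + max (lam - 1) 0 + ε) :=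
    le_mul_of_one_le_right (Nat.cast_nonneg _) (Real.one_le_rpow hX1 hθ0)
  calc ((ExcB B lam X).ncard : ℝ) ≤ (A.ncard : ℝ) + ((ExcB B lam c0).ncard : ℝ) := h1
    _ ≤ _ := by
        rw [add_mul]
        exact add_le_add h2 h3

end Pool.Agent.H705R2.ABC2
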